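import Pool.Agent.Work.MP_f0c219_gt_h67.Unique

/-!
# The Cartan-Hadamard theorem for compact locally CAT(0) spaces
-/

open Set Topology Filter
open Path.Homotopic.Quotient (trans_assoc)

namespace Pool.Agent.Work.MP_f0c219_gt.Hadamard

variable {M : Type*} [MetricSpace M] {r : ℝ} {h : LocData M r} {p : M}

namespace UC

/-- Geodesics depend continuously on the endpoint. -/
theorem geod_cont [CompactSpace M] (o m : UC h p) {t : ℝ} (ht : t ∈ Icc (0 : ℝ) 1) {w₀ : UC h p}
    (h1 : dist o w₀ = t * dist o m) (h2 : dist w₀ m = (1 - t) * dist o m) {δ : ℝ} (hδ : 0 < δ) :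
    ∃ η : ℝ, 0 < η ∧ ∀ a w : UC h p, dist a m < η → dist o w = t * dist o a →
      dist w a = (1 - t) * dist o a → dist w w₀ < δ := by
  by_contra hcon
  push Not at hcon
  have hex : ∀ n : ℕ, ∃ aw : UC h p × UC h p, dist aw.1 m < 1 / ((n : ℝ) + 1) ∧
      dist o aw.2 = t * dist o aw.1 ∧ dist aw.2 aw.1 = (1 - t) * dist o aw.1 ∧
      δ ≤ dist aw.2 w₀ := by
    intro n
    obtain ⟨a, w, h1, h2, h3, h4⟩ := hcon (1 / ((n : ℝ) + 1)) (by positivity)
    exact ⟨(a, w), h1, h2, h3, h4⟩
  choose aw k1 k2 k3 k4 using hex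
  have ha : Tendsto (fun n => (aw n).1) atTop (𝓝 m) := by
    rw [tendsto_iff_dist_tendsto_zero]
    exact squeeze_zero (fun _ => dist_nonneg) (fun n => (k1 n).le) tendsto_one_div_add_atTop_nhds_zero_nat
  have hb : ∀ n, (aw n).2 ∈ Metric.closedBall o (dist o m + 1) := by
    intro n
    rw [Metric.mem_closedBall, dist_comm, k2]
    have e1 : (1 : ℝ) / ((n : ℝ) + 1) ≤ 1 := by
      rw [div_le_one (by positivity)]
      have : (0 : ℝ) ≤ n := by positivity
      linarith
    have e2 := dist_triangle_right o (aw n).1 m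
    have e3 := k1 n
    have e4 := @dist_nonneg _ _ o (aw n).1
    nlinarith [ht.1, ht.2]
  obtain ⟨w, -, φ, hφ, hw⟩ := (isCompact_closedBall o (dist o m + 1)).tendsto_subseq hb
  have ha' : Tendsto (fun n => (aw (φ n)).1) atTop (𝓝 m) := ha.comp hφ.tendsto_atTop
  have l1 : dist o w = t * dist o m := by
    have t1 : Tendsto (fun n => dist o (aw (φ n)).2) atTop (𝓝 (dist o w)) :=
      tendsto_const_nhds.dist hw
    have t2 : Tendsto (fun n => t * dist o (aw (φ n)).1) atTop (𝓝 (t * dist o m)) :=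
      (tendsto_const_nhds.dist ha').const_mul t
    simp only [k2] at t1
    exact tendsto_nhds_unique t1 t2
  have l2 : dist w m = (1 - t) * dist o m := by
    have t1 : Tendsto (fun n => dist (aw (φ n)).2 (aw (φ n)).1) atTop (𝓝 (dist w m)) :=
      Tendsto.dist hw ha'
    have t2 : Tendsto (fun n => (1 - t) * dist o (aw (φ n)).1) atTop (𝓝 ((1 - t) * dist o m)) :=
      (tendsto_const_nhds.dist ha').const_mul _
    simp only [k3] at t1
    exact tendsto_nhds_unique t1 t2
  have hww : w = w₀ := point_unique ht l1 l2 h1 h2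
  have l3 : δ ≤ dist w w₀ := by
    have t1 : Tendsto (fun n => dist (aw (φ n)).2 w₀) atTop (𝓝 (dist w w₀)) :=
      Tendsto.dist hw tendsto_const_nhds
    exact ge_of_tendsto' t1 fun n => k4 (φ n)
  rw [hww, dist_self] at l3
  linarith

/-- The local CAT(0) inequality for distances from an arbitrary point. -/
theorem local_cn [CompactSpace M] (o m : UC h p) : ∃ η : ℝ, 0 < η ∧ ∀ a b : UC h p,
    dist a m < η → dist a m = dist a b / 2 → dist m b = dist a b / 2 →
    dist o m ^ 2 ≤ (dist o a ^ 2 + dist o b ^ 2) / 2 - dist a b ^ 2 / 4 := by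
  have hr := h.pos
  obtain ⟨n, hn⟩ := exists_nat_gt ((dist o m + 1) / (r / 64))
  have hn0 : (0 : ℝ) < n := lt_of_le_of_lt (by
    have := @dist_nonneg _ _ o m
    positivity) hn
  have hn0' : 0 < n := by exact_mod_cast hn0
  have hstep : (dist o m + 1) / n < r / 64 := by
    rw [div_lt_iff₀ (by linarith)] at hn
    rw [div_lt_iff₀ hn0]
    linarith
  obtain ⟨γm, hγm⟩ := exists_geod o m
  have hI : ∀ i : ℕ, i ≤ n → (i : ℝ) / n ∈ Icc (0 : ℝ) 1 := by
    intro i hi
    have : (i : ℝ) ≤ n := by exact_mod_cast hi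
    exact ⟨by positivity, by rw [div_le_one hn0]; exact this⟩
  have hcont : ∀ i : ℕ, ∃ η : ℝ, 0 < η ∧ (i ≤ n → ∀ a w : UC h p, dist a m < η →
      dist o w = ((i : ℝ) / n) * dist o a → dist w a = (1 - (i : ℝ) / n) * dist o a →
      dist w (γm ((i : ℝ) / n)) < r / 64) := by
    intro i
    by_cases hi : i ≤ n
    · obtain ⟨η, hη, hη'⟩ := geod_cont o m (hI i hi) (isGeodesic_left hγm (hI i hi))
        (isGeodesic_right hγm (hI i hi)) (δ := r / 64) (by linarith)
      exact ⟨η, hη, fun _ => hη'⟩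
    · exact ⟨1, one_pos, fun h => absurd h hi⟩
  choose η hη hη' using hcont
  obtain ⟨η₀, hη₀, hη₀'⟩ : ∃ η₀ : ℝ, 0 < η₀ ∧ ∀ i ≤ n, η₀ ≤ η i := by
    have hne : (Finset.range (n + 1)).Nonempty := ⟨0, by simp⟩
    obtain ⟨i₀, -, hi₀⟩ := Finset.exists_min_image (Finset.range (n + 1)) η hne
    exact ⟨η i₀, hη i₀, fun i hi => hi₀ i (by rw [Finset.mem_range]; omega)⟩
  refine ⟨min η₀ (min (r / 64) 1), by positivity, ?_⟩
  intro a b ham hm1 hm2
  have ham1 : dist a m < η₀ := lt_of_lt_of_le ham (min_le_left _ _)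
  have ham2 : dist a m < r / 64 := lt_of_lt_of_le ham ((min_le_right _ _).trans (min_le_left _ _))
  have ham3 : dist a m < 1 := lt_of_lt_of_le ham ((min_le_right _ _).trans (min_le_right _ _))
  have hbm : dist b m = dist a m := by rw [dist_comm b m, hm1, hm2]
  obtain ⟨γa, hγa⟩ := exists_geod o a
  obtain ⟨γb, hγb⟩ := exists_geod o b
  set A : ℕ → UC h p := fun i => γa ((i : ℝ) / n) with hA
  set B : ℕ → UC h p := fun i => γb ((i : ℝ) / n) with hB
  have hA0 : A 0 = o := by simp [hA, hγa.1]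
  have hB0 : B 0 = o := by simp [hB, hγb.1]
  have hAn : A n = a := by simp [hA, hn0.ne', hγa.2.1]
  have hBn : B n = b := by simp [hB, hn0.ne', hγb.2.1]
  have hAm : ∀ i ≤ n, dist (A i) (γm ((i : ℝ) / n)) < r / 64 := fun i hi =>
    hη' i hi a (A i) (ham1.trans_le (hη₀' i hi)) (isGeodesic_left hγa (hI i hi))
      (isGeodesic_right hγa (hI i hi))
  have hBm : ∀ i ≤ n, dist (B i) (γm ((i : ℝ) / n)) < r / 64 := fun i hi =>
    hη' i hi b (B i) (by rw [hbm]; exact ham1.trans_le (hη₀' i hi)) (isGeodesic_left hγb (hI i hi))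
      (isGeodesic_right hγb (hI i hi))
  have hAB : ∀ i ≤ n, dist (A i) (B i) < r / 32 := fun i hi => by
    have := dist_triangle_right (A i) (B i) (γm ((i : ℝ) / n))
    linarith [hAm i hi, hBm i hi]
  have hoa : dist o a / n < r / 64 := by
    refine lt_of_le_of_lt ?_ hstep
    have := dist_triangle_right o a m
    gcongr
    linarith
  have hob : dist o b / n < r / 64 := by
    refine lt_of_le_of_lt ?_ hstep
    have := dist_triangle_right o b m
    gcongr
    linarith
  have hAA : ∀ i < n, dist (A i) (A (i + 1)) = dist o a / n := fun i hi => by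
    have := geod_grid hγa (N := n) (i := i) (j := i + 1) (by omega) (by omega) hn0'
    rw [hA]
    simp only
    rw [this]
    push_cast
    ring
  have hBB : ∀ i < n, dist (B i) (B (i + 1)) = dist o b / n := fun i hi => by
    have := geod_grid hγb (N := n) (i := i) (j := i + 1) (by omega) (by omega) hn0'
    rw [hB]
    simp only
    rw [this]
    push_cast
    ring
  -- midpoints
  have hmid : ∀ i, ∃ c : UC h p, i ≤ n → IsMid (A i).pt (B i).pt c.pt ∧ Near (A i) c := by
    intro i
    by_cases hi : i ≤ n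
    · have hnear : Near (A i) (B i) := near_of_dist (by linarith [hAB i hi])
      have hd := hnear.dist_eq
      obtain ⟨x, hx⟩ := h.exists_mid (x := (A i).pt) (y := (B i).pt) (by linarith [hAB i hi])
      obtain ⟨c, hc, hc'⟩ := exists_near (A i) (y := x) (by rw [hx.1]; linarith [hAB i hi])
      exact ⟨c, fun _ => ⟨by rw [hc]; exact hx, hc'⟩⟩
    · exact ⟨o, fun h => absurd h hi⟩
  choose C hC using hmid
  have hABd : ∀ i ≤ n, dist (A i).pt (B i).pt = dist (A i) (B i) := fun i hi =>
    (near_of_dist (by linarith [hAB i hi])).dist_eq.symm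
  have hAC : ∀ i ≤ n, dist (A i) (C i) = dist (A i) (B i) / 2 := fun i hi => by
    rw [(hC i hi).2.dist_eq, (hC i hi).1.1, hABd i hi]
  have hC0 : C 0 = o := by
    have h1 := hAC 0 (Nat.zero_le _)
    rw [hA0, hB0, dist_self, zero_div] at h1
    exact (dist_eq_zero.1 h1).symm
  have hCn : C n = m := by
    have hab : dist a b = 2 * dist a m := by rw [hm1]; ring
    have n1 : Near a b := near_of_dist (by rw [hab]; linarith)
    have n2 : Near a m := near_of_dist (by linarith)
    have n3 : Near m b := near_of_dist (by rw [hm2, hab]; linarith)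
    have c1 := hC n le_rfl
    rw [hAn, hBn] at c1
    have c2 : IsMid a.pt b.pt m.pt :=
      ⟨by rw [← n2.dist_eq, ← n1.dist_eq]; exact hm1, by rw [← n3.dist_eq, ← n1.dist_eq]; exact hm2⟩
    have c3 := h.mid_unique c1.1 c2 (by rw [← n1.dist_eq, hab]; linarith)
    exact near_unique c1.2 n2 c3
  have hquad : ∀ i < n, dist (C i) (C (i + 1)) ^ 2 ≤
      ((dist o a / n) ^ 2 + (dist o b / n) ^ 2) / 2 -
        (dist (A (i + 1)) (B (i + 1)) - dist (A i) (B i)) ^ 2 / 4 := by
    intro i hi
    have a1 := hAA i hi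
    have b1 := hBB i hi
    have ab := hAB i hi.le
    have ab' := hAB (i + 1) hi
    have ac := hAC i hi.le
    have ac' := hAC (i + 1) hi
    have nAA : Near (A i) (A (i + 1)) := near_of_dist (by linarith)
    have nBB : Near (B i) (B (i + 1)) := near_of_dist (by linarith)
    have dcc : dist (C i) (C (i + 1)) < r / 4 := by
      have t1 := dist_triangle4 (C i) (A i) (A (i + 1)) (C (i + 1))
      rw [dist_comm (C i) (A i)] at t1
      linarith
    rw [(near_of_dist dcc).dist_eq]
    have e1 := hABd i hi.le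
    have e2 := hABd (i + 1) hi
    have e3 := nAA.dist_eq
    have e4 := nBB.dist_eq
    have t2 := dist_triangle (A i).pt (B i).pt (B (i + 1)).pt
    have q := h.mid_quad (hC i hi.le).1 (hC (i + 1) hi).1 (by rw [e1]; linarith)
      (by rw [e2]; linarith) (by rw [← e3]; linarith) (by rw [e1, ← e4] at t2; linarith)
    rw [e1, e2, ← e3, ← e4, a1, b1] at q
    nlinarith
  have hdist : dist o m ≤ ∑ i ∈ Finset.range n, dist (C i) (C (i + 1)) := by
    have := dist_le_range_sum_dist C n
    rw [hC0, hCn] at this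
    exact this
  have hCS : (∑ i ∈ Finset.range n, dist (C i) (C (i + 1))) ^ 2 ≤
      n * ∑ i ∈ Finset.range n, dist (C i) (C (i + 1)) ^ 2 := by
    have := sq_sum_le_card_mul_sum_sq (s := Finset.range n) (f := fun i => dist (C i) (C (i + 1)))
    simpa using this
  have hCS2 : (∑ i ∈ Finset.range n, (dist (A (i + 1)) (B (i + 1)) - dist (A i) (B i))) ^ 2 ≤
      n * ∑ i ∈ Finset.range n, (dist (A (i + 1)) (B (i + 1)) - dist (A i) (B i)) ^ 2 := by
    have := sq_sum_le_card_mul_sum_sq (s := Finset.range n)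
      (f := fun i => dist (A (i + 1)) (B (i + 1)) - dist (A i) (B i))
    simpa using this
  rw [Finset.sum_range_sub (fun i => dist (A i) (B i)), hAn, hBn, hA0, hB0, dist_self, sub_zero]
    at hCS2
  have hsum : ∑ i ∈ Finset.range n, dist (C i) (C (i + 1)) ^ 2 ≤
      n * (((dist o a / n) ^ 2 + (dist o b / n) ^ 2) / 2) -
      (∑ i ∈ Finset.range n, (dist (A (i + 1)) (B (i + 1)) - dist (A i) (B i)) ^ 2) / 4 := by
    calc ∑ i ∈ Finset.range n, dist (C i) (C (i + 1)) ^ 2
        ≤ ∑ i ∈ Finset.range n, (((dist o a / n) ^ 2 + (dist o b / n) ^ 2) / 2 -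
          (dist (A (i + 1)) (B (i + 1)) - dist (A i) (B i)) ^ 2 / 4) :=
          Finset.sum_le_sum fun i hi => hquad i (Finset.mem_range.1 hi)
      _ = _ := by
          rw [Finset.sum_sub_distrib, Finset.sum_const, Finset.card_range, nsmul_eq_mul,
            Finset.sum_div]
  have h0 := @dist_nonneg _ _ o m
  have h1 : dist o m ^ 2 ≤ (∑ i ∈ Finset.range n, dist (C i) (C (i + 1))) ^ 2 := by gcongr
  set S := ∑ i ∈ Finset.range n, (dist (A (i + 1)) (B (i + 1)) - dist (A i) (B i)) ^ 2
  have h2 : (n : ℝ) * ∑ i ∈ Finset.range n, dist (C i) (C (i + 1)) ^ 2 ≤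
      n * (n * (((dist o a / n) ^ 2 + (dist o b / n) ^ 2) / 2) - S / 4) := by gcongr
  have h3 : (n : ℝ) * (n * (((dist o a / n) ^ 2 + (dist o b / n) ^ 2) / 2) - S / 4) =
      (dist o a ^ 2 + dist o b ^ 2) / 2 - n * S / 4 := by
    field_simp
  linarith

/-- The CAT(0) inequality. -/
theorem cat_ineq [CompactSpace M] (x y o : UC h p) (γ : ℝ → UC h p) (hγ : IsGeodesic γ x y)
    {t : ℝ} (ht : t ∈ Icc (0 : ℝ) 1) :
    dist o (γ t) ^ 2 ≤ (1 - t) * dist o x ^ 2 + t * dist o y ^ 2 - t * (1 - t) * dist x y ^ 2 := by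
  set L := dist x y with hL
  have hL0 : 0 ≤ L := dist_nonneg
  have hγc : ContinuousOn γ (Icc (0 : ℝ) 1) := by
    have : LipschitzOnWith (Real.toNNReal L) γ (Icc (0 : ℝ) 1) := by
      apply LipschitzOnWith.of_dist_le_mul
      intro s hs t ht
      rw [hγ.2.2 s hs t ht, Real.coe_toNNReal _ hL0, Real.dist_eq, mul_comm]
    exact this.continuousOn
  set g : ℝ → ℝ := fun t => dist o (γ t) ^ 2 -
    ((1 - t) * dist o x ^ 2 + t * dist o y ^ 2 - t * (1 - t) * L ^ 2) with hg
  have hgc : ContinuousOn g (Icc (0 : ℝ) 1) := by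
    have h1 : ContinuousOn (fun t => dist o (γ t)) (Icc (0 : ℝ) 1) :=
      (continuous_const.dist continuous_id).comp_continuousOn hγc
    exact (h1.pow 2).sub (by fun_prop)
  have g0 : g 0 = 0 := by simp [hg, hγ.1]
  have g1 : g 1 = 0 := by simp [hg, hγ.2.1]
  by_contra hcon
  push Not at hcon
  have hgt : 0 < g t := by
    simp only [hg]
    linarith
  obtain ⟨t₁, ht₁, hmax⟩ := isCompact_Icc.exists_isMaxOn (nonempty_Icc.2 zero_le_one) hgc
  have hmax' := isMaxOn_iff.1 hmax
  set m := g t₁ with hm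
  have hmpos : 0 < m := lt_of_lt_of_le hgt (hmax' t ht)
  have hEc : IsCompact {s | s ∈ Icc (0 : ℝ) 1 ∧ g s = m} := by
    have : {s | s ∈ Icc (0 : ℝ) 1 ∧ g s = m} = Icc (0 : ℝ) 1 ∩ g ⁻¹' {m} := by
      ext s; simp
    rw [this]
    exact isCompact_Icc.of_isClosed_subset
      (hgc.preimage_isClosed_of_isClosed isClosed_Icc isClosed_singleton) inter_subset_left
  have hEne : {s | s ∈ Icc (0 : ℝ) 1 ∧ g s = m}.Nonempty := ⟨t₁, ht₁, rfl⟩
  have ht₀ := hEc.sInf_mem hEne
  set t₀ := sInf {s | s ∈ Icc (0 : ℝ) 1 ∧ g s = m} with ht₀def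
  obtain ⟨ht₀I, ht₀m⟩ := ht₀
  have hlt : ∀ s ∈ Icc (0 : ℝ) 1, s < t₀ → g s < m := by
    intro s hs hst
    refine lt_of_le_of_ne (hmax' s hs) fun he => ?_
    have : t₀ ≤ s := csInf_le ⟨0, fun u hu => hu.1.1⟩ ⟨hs, he⟩
    linarith
  have ht₀0 : 0 < t₀ := by
    refine lt_of_le_of_ne ht₀I.1 fun he => ?_
    rw [← he, g0] at ht₀m
    linarith
  have ht₀1 : t₀ < 1 := by
    refine lt_of_le_of_ne ht₀I.2 fun he => ?_
    rw [he, g1] at ht₀m
    linarith
  obtain ⟨η, hη, hcn⟩ := local_cn o (γ t₀)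
  obtain ⟨ε, hε, hε1, hε2, hε3⟩ : ∃ ε : ℝ, 0 < ε ∧ ε ≤ t₀ ∧ t₀ + ε ≤ 1 ∧ ε * L < η := by
    refine ⟨min (min t₀ (1 - t₀)) (η / (L + 1)), by
      have : 0 < 1 - t₀ := by linarith
      positivity, (min_le_left _ _).trans (min_le_left _ _), ?_, ?_⟩
    · have := (min_le_left (min t₀ (1 - t₀)) (η / (L + 1))).trans (min_le_right _ _)
      linarith
    · have h1 := min_le_right (min t₀ (1 - t₀)) (η / (L + 1))
      calc min (min t₀ (1 - t₀)) (η / (L + 1)) * L ≤ η / (L + 1) * L := by gcongr
        _ = η * (L / (L + 1)) := by ring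
        _ < η * 1 := by
          gcongr
          rw [div_lt_one (by linarith)]
          linarith
        _ = η := mul_one _
  have e1 := isGeodesic_dist hγ (s := t₀ - ε) (t := t₀) (by linarith) (by linarith) ht₀1.le
  have e2 := isGeodesic_dist hγ (s := t₀) (t := t₀ + ε) ht₀0.le (by linarith) hε2
  have e3 := isGeodesic_dist hγ (s := t₀ - ε) (t := t₀ + ε) (by linarith) (by linarith) hε2
  rw [← hL] at e1 e2 e3
  have hc := hcn (γ (t₀ - ε)) (γ (t₀ + ε)) (by rw [e1]; linarith [hε3])
    (by rw [e1, e3]; ring) (by rw [e2, e3]; ring)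
  rw [e3] at hc
  have l1 := hlt (t₀ - ε) ⟨by linarith, by linarith⟩ (by linarith)
  have l2 := hmax' (t₀ + ε) ⟨by linarith, hε2⟩
  rw [← ht₀m] at l1 l2
  simp only [hg] at l1 l2
  nlinarith

theorem isCAT0 [CompactSpace M] : IsCAT0 (UC h p) :=
  ⟨exists_geod, fun x y o γ hγ t ht => cat_ineq x y o γ hγ ht⟩

/-! ### The action of the fundamental group -/

theorem symm_trans_rev {X : Type*} [TopologicalSpace X] {x y z : X}
    (P : Path.Homotopic.Quotient x y) (Q : Path.Homotopic.Quotient y z) :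
    (P.trans Q).symm = Q.symm.trans P.symm := by
  induction P using Path.Homotopic.Quotient.ind with | mk P =>
  induction Q using Path.Homotopic.Quotient.ind with | mk Q =>
  rw [← Path.Homotopic.Quotient.mk_trans, ← Path.Homotopic.Quotient.mk_symm, Path.trans_symm]
  rfl

noncomputable instance : MulAction (FundamentalGroup M p) (UC h p) where
  smul g a := ⟨a.pt, (Path.Homotopic.Quotient.symm (FundamentalGroup.toPath g)).trans a.cls⟩
  one_smul a := by
    change (⟨a.pt, (Path.Homotopic.Quotient.symm (Path.Homotopic.Quotient.refl p)).trans a.cls⟩ :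
      UC h p) = a
    have : Path.Homotopic.Quotient.symm (Path.Homotopic.Quotient.refl p) =
        Path.Homotopic.Quotient.refl p := by
      have := Path.Homotopic.Quotient.symm_trans (Path.Homotopic.Quotient.refl p)
      rwa [Path.Homotopic.Quotient.trans_refl] at this
    rw [this, Path.Homotopic.Quotient.refl_trans]
  mul_smul g k a := by
    change (⟨a.pt, (Path.Homotopic.Quotient.symm
      (Path.Homotopic.Quotient.trans (FundamentalGroup.toPath k) (FundamentalGroup.toPath g))).trans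
        a.cls⟩ : UC h p) = ⟨a.pt, (Path.Homotopic.Quotient.symm (FundamentalGroup.toPath g)).trans
          ((Path.Homotopic.Quotient.symm (FundamentalGroup.toPath k)).trans a.cls)⟩
    rw [symm_trans_rev, trans_assoc]

theorem smul_pt (g : FundamentalGroup M p) (a : UC h p) : (g • a).pt = a.pt := rfl

theorem smul_cls (g : FundamentalGroup M p) (a : UC h p) :
    (g • a).cls = (Path.Homotopic.Quotient.symm (FundamentalGroup.toPath g)).trans a.cls := rfl

theorem Near.smul {a b : UC h p} (hab : Near a b) (g : FundamentalGroup M p) :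
    Near (g • a) (g • b) := by
  obtain ⟨f, hf, hc⟩ := hab
  refine ⟨f, hf, ?_⟩
  rw [smul_cls, smul_cls, hc]
  exact (trans_assoc _ _ _).symm

theorem Len.smul {a b : UC h p} {l : ℝ} (hl : Len a b l) (g : FundamentalGroup M p) :
    Len (g • a) (g • b) l := by
  induction hl with
  | refl => exact Len.refl _
  | @step b c l _ hn ih =>
    have := Len.step ih (hn.smul g)
    exact this

theorem dist_smul_le (g : FundamentalGroup M p) (a b : UC h p) :
    dist (g • a) (g • b) ≤ dist a b :=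
  le_csInf (exists_len a b) fun _ hl => dist_le_of_len (Len.smul hl g)

theorem dist_smul_eq (g : FundamentalGroup M p) (a b : UC h p) :
    dist (g • a) (g • b) = dist a b := by
  refine le_antisymm (dist_smul_le g a b) ?_
  have := dist_smul_le g⁻¹ (g • a) (g • b)
  rwa [inv_smul_smul, inv_smul_smul] at this

theorem displacement (g : FundamentalGroup M p) (hg : g ≠ 1) (a : UC h p) :
    r / 4 ≤ dist a (g • a) := by
  by_contra hlt
  push Not at hlt
  have h1 : a = g • a := near_unique (near_refl a) (near_of_dist hlt) rfl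
  have h2 : a.cls = (Path.Homotopic.Quotient.symm (FundamentalGroup.toPath g)).trans a.cls :=
    eq_of_heq (UC.ext_iff.1 h1).2
  apply hg
  have h3 : (Path.Homotopic.Quotient.symm (FundamentalGroup.toPath g)).trans
      (a.cls.trans a.cls.symm) = a.cls.trans a.cls.symm := by
    rw [← trans_assoc, ← h2]
  rw [Path.Homotopic.Quotient.trans_symm, Path.Homotopic.Quotient.trans_refl] at h3
  have h4 : (FundamentalGroup.toPath g).trans
      (Path.Homotopic.Quotient.symm (FundamentalGroup.toPath g)) =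
      (FundamentalGroup.toPath g).trans (Path.Homotopic.Quotient.refl p) := by rw [h3]
  rw [Path.Homotopic.Quotient.trans_symm, Path.Homotopic.Quotient.trans_refl] at h4
  exact h4.symm

end UC

/-- **Cartan-Hadamard theorem** for compact locally CAT(0) spaces. -/
theorem cartan_hadamard {M : Type} [MetricSpace M] [CompactSpace M] (hM : LocallyCAT0 M) (p : M) :
    ∃ (X : Type) (_ : MetricSpace X) (_ : MulAction (FundamentalGroup M p) X), Nonempty X ∧
      IsCAT0 X ∧ (∀ (g : FundamentalGroup M p) (x y : X), dist (g • x) (g • y) = dist x y) ∧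
      ∃ δ : ℝ, 0 < δ ∧ ∀ g : FundamentalGroup M p, g ≠ 1 → ∀ x : X, δ ≤ dist x (g • x) := by
  obtain ⟨r, h⟩ := exists_locData hM
  have hr := h.pos
  exact ⟨UC h p, inferInstance, inferInstance, ⟨⟨p, Path.Homotopic.Quotient.refl p⟩⟩, UC.isCAT0,
    UC.dist_smul_eq, r / 4, by linarith, UC.displacement⟩

end Pool.Agent.Work.MP_f0c219_gt.Hadamard
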