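import Pool.Agent.Work.MP_f0c219_gt_h67.Local

/-!
# Block E6: the chain metric of a compact connected locally CAT(0) space
-/

open Set Topology

namespace Pool.Agent.Work.MP_f0c219_gt.Length

section chain

variable {M : Type*} [MetricSpace M]

/-- `L` is the length of a chain from `x` to `y` with steps smaller than `r`. -/
inductive Chain (r : ℝ) : M → M → ℝ → Prop
  | nil (x : M) : Chain r x x 0
  | cons {x y z : M} {L : ℝ} (h : dist x y < r) (hc : Chain r y z L) : Chain r x z (dist x y + L)

theorem Chain.dist_le {r : ℝ} {x y : M} {L : ℝ} (h : Chain r x y L) : dist x y ≤ L := by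
  induction h with
  | nil x => simp
  | cons h hc ih => exact (dist_triangle _ _ _).trans (by linarith)

theorem Chain.append {r : ℝ} {x y z : M} {L L' : ℝ} (h : Chain r x y L) (h' : Chain r y z L') :
    Chain r x z (L + L') := by
  induction h with
  | nil x => simpa using h'
  | cons h hc ih => rw [add_assoc]; exact .cons h (ih h')

theorem Chain.single {r : ℝ} {x y : M} (h : dist x y < r) : Chain r x y (dist x y) := by
  have := Chain.cons h (Chain.nil y)
  simpa using this

theorem Chain.symm {r : ℝ} {x y : M} {L : ℝ} (h : Chain r x y L) : Chain r y x L := by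
  induction h with
  | nil x => exact .nil x
  | @cons x y z L h hc ih =>
    have h1 : Chain r y x (dist x y) := by
      rw [dist_comm] at h ⊢
      exact .single h
    have := ih.append h1
    rwa [add_comm] at this

theorem exists_chain [ConnectedSpace M] {r : ℝ} (hr : 0 < r) (x y : M) : ∃ L, Chain r x y L := by
  have hopen : ∀ x : M, IsOpen {y | ∃ L, Chain r x y L} := by
    intro x
    rw [Metric.isOpen_iff]
    rintro y ⟨L, hL⟩
    refine ⟨r, hr, ?_⟩
    intro z hz
    rw [Metric.mem_ball, dist_comm] at hz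
    exact ⟨_, hL.append (.single hz)⟩
  have hclosed : IsClosed {y | ∃ L, Chain r x y L} := by
    rw [← isOpen_compl_iff, Metric.isOpen_iff]
    intro y hy
    refine ⟨r, hr, ?_⟩
    rintro z hz ⟨L, hL⟩
    rw [Metric.mem_ball] at hz
    exact hy ⟨_, hL.append (.single hz)⟩
  have := IsClopen.eq_univ ⟨hclosed, hopen x⟩ ⟨x, 0, .nil x⟩
  have hy : y ∈ {y | ∃ L, Chain r x y L} := this ▸ mem_univ y
  exact hy

/-- The chain distance. -/
noncomputable def cd (r : ℝ) (x y : M) : ℝ := sInf {L | Chain r x y L}

theorem bddBelow (r : ℝ) (x y : M) : BddBelow {L | Chain r x y L} :=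
  ⟨dist x y, fun _ hL => hL.dist_le⟩

theorem cd_le {r : ℝ} {x y : M} {L : ℝ} (h : Chain r x y L) : cd r x y ≤ L :=
  csInf_le (bddBelow r x y) h

theorem dist_le_cd [ConnectedSpace M] {r : ℝ} (hr : 0 < r) (x y : M) : dist x y ≤ cd r x y :=
  le_csInf (exists_chain hr x y) fun _ hL => hL.dist_le

theorem cd_eq [ConnectedSpace M] {r : ℝ} (hr : 0 < r) {x y : M} (h : dist x y < r) :
    cd r x y = dist x y :=
  le_antisymm (cd_le (.single h)) (dist_le_cd hr x y)

theorem exists_lt [ConnectedSpace M] {r : ℝ} (hr : 0 < r) (x y : M) {ε : ℝ} (hε : 0 < ε) :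
    ∃ L, Chain r x y L ∧ L < cd r x y + ε := by
  obtain ⟨L, hL, h⟩ := exists_lt_of_csInf_lt (exists_chain hr x y)
    (show sInf {L | Chain r x y L} < cd r x y + ε by unfold cd; linarith)
  exact ⟨L, hL, h⟩

theorem cd_comm (r : ℝ) (x y : M) : cd r x y = cd r y x := by
  unfold cd
  congr 1
  ext L
  exact ⟨Chain.symm, Chain.symm⟩

theorem cd_triangle [ConnectedSpace M] {r : ℝ} (hr : 0 < r) (x y z : M) :
    cd r x z ≤ cd r x y + cd r y z := by
  refine le_of_forall_pos_lt_add fun ε hε => ?_
  obtain ⟨L, hL, h⟩ := exists_lt hr x y (half_pos hε)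
  obtain ⟨L', hL', h'⟩ := exists_lt hr y z (half_pos hε)
  have := cd_le (hL.append hL')
  linarith

/-- The chain metric. -/
@[instance_reducible]
noncomputable def chainMetric [ConnectedSpace M] {r : ℝ} (hr : 0 < r) : MetricSpace M where
  dist := cd r
  dist_self x := by
    rw [cd_eq hr (by simpa using hr)]
    simp
  dist_comm := cd_comm r
  dist_triangle := cd_triangle hr
  eq_of_dist_eq_zero {x y} h := by
    have h1 := dist_le_cd hr x y
    have h2 : cd r x y = 0 := h
    exact dist_le_zero.1 (h1.trans h2.le)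

theorem chainMetric_dist [ConnectedSpace M] {r : ℝ} (hr : 0 < r) (x y : M) :
    (chainMetric hr).dist x y = cd r x y := rfl

end chain

theorem chainMetric_topology {M : Type*} [m : MetricSpace M] [ConnectedSpace M] {r : ℝ}
    (hr : 0 < r) : (chainMetric (M := M) hr).toUniformSpace.toTopologicalSpace =
      m.toUniformSpace.toTopologicalSpace := by
  apply TopologicalSpace.ext_nhds
  intro x
  have h1 := @Metric.nhds_basis_ball M (chainMetric (M := M) hr).toPseudoMetricSpace x
  have h2 := @Metric.nhds_basis_ball M m.toPseudoMetricSpace x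
  refine h1.ext h2 ?_ ?_
  · intro ε hε
    refine ⟨min ε r, lt_min hε hr, ?_⟩
    intro y hy
    rw [Metric.mem_ball] at hy
    have h3 : cd r y x = dist y x := cd_eq hr (hy.trans_le (min_le_right _ _))
    change cd r y x < ε
    rw [h3]
    exact hy.trans_le (min_le_left _ _)
  · intro ε hε
    refine ⟨ε, hε, ?_⟩
    intro y hy
    have h3 : cd r y x < ε := hy
    rw [Metric.mem_ball]
    exact (dist_le_cd hr y x).trans_lt h3

/-- One-Lipschitz curves. -/
theorem lipschitz_concat {M : Type*} [MetricSpace M] {x y z : M} {L L' : ℝ} (hL : 0 ≤ L)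
    (hL' : 0 ≤ L')
    (h : ∃ γ : ℝ → M, γ 0 = x ∧ γ L = y ∧ ∀ s t, 0 ≤ s → s ≤ t → t ≤ L → dist (γ s) (γ t) ≤ t - s)
    (h' : ∃ γ : ℝ → M, γ 0 = y ∧ γ L' = z ∧
      ∀ s t, 0 ≤ s → s ≤ t → t ≤ L' → dist (γ s) (γ t) ≤ t - s) :
    ∃ γ : ℝ → M, γ 0 = x ∧ γ (L + L') = z ∧
      ∀ s t, 0 ≤ s → s ≤ t → t ≤ L + L' → dist (γ s) (γ t) ≤ t - s := by
  classical
  obtain ⟨γ, h0, h1, hd⟩ := h
  obtain ⟨δ, g0, g1, gd⟩ := h'
  refine ⟨fun t => if t ≤ L then γ t else δ (t - L), ?_, ?_, ?_⟩
  · simp [hL, h0]
  · rcases hL'.eq_or_lt with h | h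
    · have : ¬ (L + L' ≤ L) ∨ L' = 0 := Or.inr h.symm
      simp only [← h, add_zero, le_refl, if_true]
      rw [h1, ← g0, ← g1, ← h]
    · have : ¬ (L + L' ≤ L) := by linarith
      simp only [this, if_false, add_sub_cancel_left, g1]
  · intro s t hs hst ht
    by_cases h1' : t ≤ L
    · have h2' : s ≤ L := hst.trans h1'
      simp only [h1', h2', if_true]
      exact hd s t hs hst h1'
    · by_cases h2' : s ≤ L
      · simp only [h1', h2', if_true, if_false]
        push Not at h1'
        have a1 := hd s L hs h2' le_rfl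
        have a2 := gd 0 (t - L) le_rfl (by linarith) (by linarith)
        have a3 := dist_triangle (γ s) (γ L) (δ (t - L))
        rw [h1, ← g0] at a3
        rw [h1, ← g0] at a1
        linarith
      · simp only [h1', h2', if_false]
        push Not at h1' h2'
        have := gd (s - L) (t - L) (by linarith) (by linarith) (by linarith)
        linarith

theorem isLengthMetric_of_lipschitz {M : Type*} [MetricSpace M]
    (h : ∀ (x y : M) (ε : ℝ), 0 < ε → ∃ (L : ℝ) (γ : ℝ → M), 0 ≤ L ∧ L ≤ dist x y + ε ∧
      γ 0 = x ∧ γ L = y ∧ ∀ s t, 0 ≤ s → s ≤ t → t ≤ L → dist (γ s) (γ t) ≤ t - s) :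
    IsLengthMetric M := by
  intro x y ε hε
  obtain ⟨L, γ, hL, hLe, h0, h1, hd⟩ := h x y ε hε
  have hlip : LipschitzWith L.toNNReal (fun u : unitInterval => γ (L * u)) := by
    apply LipschitzWith.of_dist_le_mul
    intro u v
    rw [Real.coe_toNNReal _ hL]
    have key : ∀ u v : unitInterval, u ≤ v → dist (γ (L * u)) (γ (L * v)) ≤ L * dist u v := by
      intro u v huv
      have huv' : (u : ℝ) ≤ v := huv
      have := hd (L * u) (L * v) (mul_nonneg hL u.2.1) (mul_le_mul_of_nonneg_left huv' hL)
        (mul_le_of_le_one_right hL v.2.2)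
      refine this.trans ?_
      rw [Subtype.dist_eq, Real.dist_eq, abs_sub_comm, abs_of_nonneg (by linarith)]
      linarith
    rcases le_total u v with h | h
    · exact key u v h
    · rw [dist_comm, dist_comm u v]; exact key v u h
  refine ⟨⟨fun u : unitInterval => γ (L * u), hlip.continuous⟩, ?_, ?_, ?_⟩
  · change γ (L * ((0 : unitInterval) : ℝ)) = x
    rw [Set.Icc.coe_zero, mul_zero, h0]
  · change γ (L * ((1 : unitInterval) : ℝ)) = y
    rw [Set.Icc.coe_one, mul_one, h1]
  · have hval : eVariationOn (fun u : unitInterval => (u : ℝ)) univ ≤ ENNReal.ofReal 1 := by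
      have hm : MonotoneOn (fun u : unitInterval => (u : ℝ)) univ := fun a _ b _ h => h
      have := (hm.eVariationOn_eq (mem_univ (0 : unitInterval)) (mem_univ (1 : unitInterval))).le
      have h2 : (univ : Set unitInterval) ∩ Icc 0 1 = univ := by
        ext u
        exact ⟨fun _ => mem_univ _, fun _ => ⟨mem_univ _, u.2.1, u.2.2⟩⟩
      rw [h2] at this
      simpa using this
    have h3 : eVariationOn (fun u : unitInterval => γ (L * u)) univ ≤
        ENNReal.ofReal L * eVariationOn (fun u : unitInterval => (u : ℝ)) univ := by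
      rw [eVariationOn, iSup_le_iff]
      rintro ⟨n, u, hu, -⟩
      calc ∑ i ∈ Finset.range n, edist (γ (L * (u (i + 1) : unitInterval))) (γ (L * (u i : unitInterval)))
          ≤ ∑ i ∈ Finset.range n, ENNReal.ofReal L * edist ((u (i + 1) : unitInterval) : ℝ) (u i : unitInterval) := by
            refine Finset.sum_le_sum fun i _ => ?_
            exact hlip (u (i + 1)) (u i)
        _ = ENNReal.ofReal L * ∑ i ∈ Finset.range n, edist ((u (i + 1) : unitInterval) : ℝ) (u i : unitInterval) := by
            rw [Finset.mul_sum]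
        _ ≤ _ := by
            gcongr
            exact eVariationOn.sum_le (f := fun u : unitInterval => (u : ℝ)) (s := univ)
              hu (fun i => mem_univ _)
    refine h3.trans ?_
    calc ENNReal.ofReal L * eVariationOn (fun u : unitInterval => (u : ℝ)) univ
        ≤ ENNReal.ofReal L * ENNReal.ofReal 1 := by gcongr
      _ = ENNReal.ofReal L := by simp
      _ ≤ _ := ENNReal.ofReal_le_ofReal hLe

theorem isCAT0_closedBall {M : Type*} [MetricSpace M] {r : ℝ} (h : Hadamard.LocData M r) (x : M) :
    IsCAT0 (Metric.closedBall x (r / 4)) := by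
  have hr := h.pos
  constructor
  · rintro ⟨y, hy⟩ ⟨z, hz⟩
    rw [Metric.mem_closedBall] at hy hz
    have hyz : dist y z < r := by
      have := dist_triangle_right y z x
      linarith
    obtain ⟨γ, hγ⟩ := h.geo y z hyz
    have hmem : ∀ t ∈ Icc (0 : ℝ) 1, γ t ∈ Metric.closedBall x (r / 4) := by
      intro t ht
      rw [Metric.mem_closedBall, dist_comm]
      have h1 := h.cat y z x γ hγ hyz (by rw [dist_comm]; linarith) t ht
      have h2 : dist x y ^ 2 ≤ (r / 4) ^ 2 := by
        rw [dist_comm]; exact pow_le_pow_left₀ dist_nonneg hy 2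
      have h3 : dist x z ^ 2 ≤ (r / 4) ^ 2 := by
        rw [dist_comm]; exact pow_le_pow_left₀ dist_nonneg hz 2
      have h4 : dist x (γ t) ^ 2 ≤ (r / 4) ^ 2 := by
        have h5 : 0 ≤ t * (1 - t) * dist y z ^ 2 :=
          mul_nonneg (mul_nonneg ht.1 (by linarith [ht.2])) (sq_nonneg _)
        have h6 := mul_le_mul_of_nonneg_left h2 (by linarith [ht.2] : (0 : ℝ) ≤ 1 - t)
        have h7 := mul_le_mul_of_nonneg_left h3 ht.1
        nlinarith
      exact (abs_le_of_sq_le_sq' h4 (by linarith)).2
    refine ⟨fun t => ⟨γ (projIcc 0 1 zero_le_one t), hmem _ (projIcc 0 1 zero_le_one t).2⟩, ?_, ?_, ?_⟩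
    · apply Subtype.ext
      simp [hγ.1]
    · apply Subtype.ext
      simp [hγ.2.1]
    · intro s hs t ht
      rw [Subtype.dist_eq, Subtype.dist_eq]
      simp only [projIcc_of_mem _ hs, projIcc_of_mem _ ht]
      exact hγ.2.2 s hs t ht
  · rintro ⟨y, hy⟩ ⟨z, hz⟩ ⟨p, hp⟩ γ hγ t ht
    rw [Metric.mem_closedBall] at hy hz hp
    rw [Subtype.dist_eq, Subtype.dist_eq, Subtype.dist_eq, Subtype.dist_eq]
    have hyz : dist y z < r := by
      have := dist_triangle_right y z x
      linarith
    have hpy : dist p y < r := by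
      have := dist_triangle_right p y x
      linarith
    refine h.cat y z p (fun t => (γ t : M)) ⟨?_, ?_, ?_⟩ hyz hpy t ht
    · exact congrArg Subtype.val hγ.1
    · exact congrArg Subtype.val hγ.2.1
    · exact hγ.2.2

theorem admits_aux {M : Type*} [m : MetricSpace M] [CompactSpace M] [ConnectedSpace M]
    (h : LocallyCAT0 M) : AdmitsLocallyCAT0 M := by
  obtain ⟨r, hloc⟩ := Hadamard.exists_locData h
  have hr := hloc.pos
  refine ⟨chainMetric hr, chainMetric_topology hr, ?_, ?_⟩
  · have hchain : ∀ (x y : M) (L : ℝ), Chain r x y L → 0 ≤ L ∧ ∃ γ : ℝ → M, γ 0 = x ∧ γ L = y ∧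
        ∀ s t, 0 ≤ s → s ≤ t → t ≤ L → (chainMetric hr).dist (γ s) (γ t) ≤ t - s := by
      intro x y L hc
      induction hc with
      | nil x =>
        refine ⟨le_rfl, fun _ => x, rfl, rfl, ?_⟩
        intro s t hs hst ht
        rw [@dist_self M (chainMetric hr).toPseudoMetricSpace]
        linarith
      | @cons x y z L hxy hc ih =>
        refine ⟨add_nonneg dist_nonneg ih.1, ?_⟩
        refine @lipschitz_concat M (chainMetric hr) x y z _ _ dist_nonneg ih.1 ?_ ih.2
        obtain ⟨γ, hγ⟩ := hloc.geo x y hxy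
        rcases (dist_nonneg (x := x) (y := y)).eq_or_lt with h0 | h0
        · have hxy' : x = y := dist_eq_zero.1 h0.symm
          refine ⟨fun _ => x, rfl, hxy', ?_⟩
          intro s t hs hst ht
          rw [@dist_self M (chainMetric hr).toPseudoMetricSpace]
          linarith
        · refine ⟨fun t => γ (t / dist x y), by simp [hγ.1], ?_, ?_⟩
          · simp only [div_self h0.ne', hγ.2.1]
          · intro s t hs hst ht
            have e1 : dist (γ (s / dist x y)) (γ (t / dist x y)) = t - s := by
              rw [hγ.2.2 _ ⟨by positivity, (div_le_one h0).2 (hst.trans ht)⟩ _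
                ⟨div_nonneg (hs.trans hst) h0.le, (div_le_one h0).2 ht⟩]
              rw [← sub_div, abs_div, abs_of_pos h0, div_mul_cancel₀ _ h0.ne', abs_sub_comm,
                abs_of_nonneg (by linarith)]
            rw [chainMetric_dist, cd_eq hr (by rw [e1]; linarith), e1]
    apply @isLengthMetric_of_lipschitz M (chainMetric hr)
    intro x y ε hε
    obtain ⟨L, hL, hLε⟩ := exists_lt hr x y hε
    obtain ⟨h0, γ, hγ⟩ := hchain x y L hL
    exact ⟨L, γ, h0, hLε.le, hγ⟩
  · intro x
    refine ⟨Metric.closedBall x (r / 4), ?_, ?_⟩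
    · rw [chainMetric_topology hr]
      exact Metric.closedBall_mem_nhds x (by linarith)
    · have hcat := isCAT0_closedBall hloc x
      have heq : @Subtype.metricSpace M (fun y => y ∈ Metric.closedBall x (r / 4)) (chainMetric hr) =
          @Subtype.metricSpace M (fun y => y ∈ Metric.closedBall x (r / 4)) m := by
        apply MetricSpace.ext
        apply Dist.ext
        funext y z
        have hyz : dist (y : M) z < r := by
          have h1 := y.2
          have h2 := z.2
          rw [Metric.mem_closedBall] at h1 h2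
          have := dist_triangle_right (y : M) z x
          linarith
        change cd r (y : M) z = dist (y : M) z
        exact cd_eq hr hyz
      rw [heq]
      exact hcat

/-- E6: the induced length metric of a compact connected locally CAT(0) space. -/
theorem admitsLocallyCAT0_of_locallyCAT0 {M : Type*} [t : TopologicalSpace M] [CompactSpace M]
    [ConnectedSpace M] (m : MetricSpace M) (hm : m.toUniformSpace.toTopologicalSpace = t)
    (h : @LocallyCAT0 M m) : AdmitsLocallyCAT0 M := by
  subst hm
  exact admits_aux h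

end Pool.Agent.Work.MP_f0c219_gt.Length
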