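import Pool.Agent.Work.MP_f0c219_gt_h67.Local

/-!
# The space of homotopy classes of paths from a base point, with its chain metric
-/

open Set Topology

namespace Pool.Agent.Work.MP_f0c219_gt.Hadamard

open Path.Homotopic.Quotient (trans_assoc)

variable {M : Type*} [MetricSpace M] {r : ℝ}

/-- the path given by a geodesic -/
theorem exists_path_of_geodesic {x y : M} {γ : ℝ → M} (hγ : IsGeodesic γ x y) :
    ∃ f : Path x y, ∀ t : unitInterval, f t = γ t := by
  have hc : Continuous (fun t : unitInterval => γ (t : ℝ)) := by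
    rw [continuous_iff_continuousAt]
    intro t
    unfold ContinuousAt
    rw [tendsto_iff_dist_tendsto_zero]
    have h1 : ∀ s : unitInterval, dist (γ s) (γ t) = |(s : ℝ) - t| * dist x y := fun s =>
      hγ.2.2 s s.2 t t.2
    simp only [h1]
    have hc : Continuous (fun s : unitInterval => |(s : ℝ) - t| * dist x y) := by fun_prop
    have := hc.tendsto t
    simpa using this
  exact ⟨⟨⟨fun t => γ t, hc⟩, by simpa using hγ.1, by simpa using hγ.2.1⟩, fun t => rfl⟩

namespace LocData

variable (h : LocData M r)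

include h

theorem exists_short {x y : M} (hxy : dist x y < r) :
    ∃ f : Path x y, ∀ t, dist (f t) x ≤ dist x y := by
  obtain ⟨γ, hγ⟩ := h.geo x y hxy
  obtain ⟨f, hf⟩ := exists_path_of_geodesic hγ
  refine ⟨f, fun t => ?_⟩
  rw [hf]
  have := hγ.2.2 t t.2 0 ⟨le_rfl, zero_le_one⟩
  rw [hγ.1, sub_zero, abs_of_nonneg t.2.1] at this
  rw [this]
  have h0 := @dist_nonneg _ _ x y
  have h1 := t.2.2
  nlinarith

end LocData

/-- homotopy classes of paths from `p` -/
@[ext]
structure UC (h : LocData M r) (p : M) where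
  /-- the endpoint -/
  pt : M
  /-- the class -/
  cls : Path.Homotopic.Quotient p pt

/-- grid points of the unit interval -/
noncomputable def tt (N i : ℕ) : unitInterval :=
  ⟨min ((i : ℝ) / N) 1, le_min (by positivity) zero_le_one, min_le_right _ _⟩

theorem tt_coe {N i : ℕ} (hi : i ≤ N) : ((tt N i : unitInterval) : ℝ) = (i : ℝ) / N := by
  change min ((i : ℝ) / N) 1 = _
  apply min_eq_left
  apply div_le_one_of_le₀ _ (by positivity)
  exact_mod_cast hi

theorem tt_zero (N : ℕ) : tt N 0 = 0 := by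
  apply Subtype.ext
  rw [tt_coe (Nat.zero_le _)]
  simp

theorem tt_self {N : ℕ} (hN : 0 < N) : tt N N = 1 := by
  apply Subtype.ext
  rw [tt_coe le_rfl]
  have : (N : ℝ) ≠ 0 := by positivity
  simp [this]

theorem tt_sub {N i : ℕ} (hi : i < N) : |((tt N (i + 1) : unitInterval) : ℝ) - tt N i| = 1 / N := by
  rw [tt_coe hi.le, tt_coe hi]
  have : (0 : ℝ) < N := by exact_mod_cast (Nat.zero_le i).trans_lt hi
  rw [← sub_div]
  push_cast
  rw [add_sub_cancel_left, abs_of_pos (by positivity)]

theorem unif {Y : Type*} [PseudoMetricSpace Y] {f : unitInterval → Y} (hf : Continuous f) {ε : ℝ}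
    (hε : 0 < ε) : ∃ N₀ : ℕ, 0 < N₀ ∧ ∀ N ≥ N₀, ∀ s t : unitInterval, |(s : ℝ) - t| ≤ 1 / N →
      dist (f s) (f t) < ε := by
  have hu := CompactSpace.uniformContinuous_of_continuous hf
  rw [Metric.uniformContinuous_iff] at hu
  obtain ⟨δ, hδ, hd⟩ := hu ε hε
  obtain ⟨n, hn⟩ := exists_nat_gt (1 / δ)
  have hn0 : (0 : ℝ) < n := lt_trans (by positivity) hn
  refine ⟨n, by exact_mod_cast hn0, fun N hN s t hst => hd ?_⟩
  rw [Subtype.dist_eq, Real.dist_eq]
  have hN' : (n : ℝ) ≤ N := by exact_mod_cast hN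
  calc |(s : ℝ) - t| ≤ 1 / N := hst
    _ ≤ 1 / n := by gcongr
    _ < δ := by
      rw [div_lt_iff₀ hn0]
      rw [div_lt_iff₀ hδ] at hn
      linarith

namespace UC

variable {h : LocData M r} {p : M}

/-- `b` is obtained from `a` by a short path -/
def Near (a b : UC h p) : Prop :=
  ∃ f : Path a.pt b.pt, (∀ t, dist (f t) a.pt < r / 4) ∧ b.cls = a.cls.trans (Path.Homotopic.Quotient.mk f)

theorem Near.dist_lt {a b : UC h p} (hab : Near a b) : dist a.pt b.pt < r / 4 := by
  obtain ⟨f, hf, -⟩ := hab
  have := hf 1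
  rw [f.target, dist_comm] at this
  exact this

/-- only the endpoints matter for short paths -/
theorem cls_short {a b : UC h p} (hab : Near a b) {g : Path a.pt b.pt}
    (hg : ∀ t, dist (g t) a.pt < r) : b.cls = a.cls.trans (Path.Homotopic.Quotient.mk g) := by
  obtain ⟨f, hf, hc⟩ := hab
  rw [hc]
  congr 1
  rw [Path.Homotopic.Quotient.eq]
  refine h.sc a.pt _ _ f g (fun t => ?_) hg
  have := h.pos
  linarith [hf t]

theorem near_of_cls {a b : UC h p} (hd : dist a.pt b.pt < r / 4) {g : Path a.pt b.pt}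
    (hg : ∀ t, dist (g t) a.pt < r) (hc : b.cls = a.cls.trans (Path.Homotopic.Quotient.mk g)) : Near a b := by
  have hr := h.pos
  obtain ⟨f, hf⟩ := h.exists_short (show dist a.pt b.pt < r by linarith)
  refine ⟨f, fun t => lt_of_le_of_lt (hf t) hd, ?_⟩
  rw [hc]
  congr 1
  rw [Path.Homotopic.Quotient.eq]
  refine h.sc a.pt _ _ g f hg (fun t => ?_)
  linarith [hf t]

theorem near_refl (a : UC h p) : Near a a := by
  have hr := h.pos
  refine ⟨Path.refl _, fun t => ?_, ?_⟩
  · simpa using hr
  · simp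

theorem Near.symm {a b : UC h p} (hab : Near a b) : Near b a := by
  have hr := h.pos
  have hd := hab.dist_lt
  obtain ⟨f, hf, hc⟩ := hab
  refine near_of_cls (g := f.symm) (by rw [dist_comm]; exact hd) (fun t => ?_) ?_
  · have h1 := hf (unitInterval.symm t)
    have h2 : dist (f.symm t) b.pt ≤ dist (f (unitInterval.symm t)) a.pt + dist a.pt b.pt :=
      dist_triangle _ _ _
    linarith
  · rw [hc]
    simp

theorem Near.trans {a b c : UC h p} (hab : Near a b) (hbc : Near b c)
    (hac : dist a.pt c.pt < r / 4) : Near a c := by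
  have hr := h.pos
  have hd := hab.dist_lt
  obtain ⟨f, hf, hc⟩ := hab
  obtain ⟨g, hg, hc'⟩ := hbc
  refine near_of_cls (g := f.trans g) hac (fun t => ?_) ?_
  · rw [Path.trans_apply]
    split_ifs
    · linarith [hf ⟨2 * (t : ℝ), by
        constructor
        · have := t.2.1; linarith
        · linarith⟩]
    · have h3 := hg ⟨2 * (t : ℝ) - 1, by
        constructor
        · linarith
        · have := t.2.2; linarith⟩
      have h4 := dist_triangle (g ⟨2 * (t : ℝ) - 1, by
        constructor
        · linarith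
        · have := t.2.2; linarith⟩) b.pt a.pt
      rw [dist_comm b.pt a.pt] at h4
      linarith
  · rw [hc', hc]
    simp

theorem near_unique {a b c : UC h p} (hab : Near a b) (hac : Near a c) (hpt : b.pt = c.pt) :
    b = c := by
  obtain ⟨f, hf, hc⟩ := hab
  obtain ⟨g, hg, hc'⟩ := hac
  obtain ⟨y, β⟩ := b
  obtain ⟨z, δ⟩ := c
  dsimp only at hpt f hf hc g hg hc'
  subst hpt
  have : β = δ := by
    rw [hc, hc']
    congr 1
    rw [Path.Homotopic.Quotient.eq]
    have hr := h.pos
    exact h.sc a.pt _ _ f g (fun t => by linarith [hf t]) (fun t => by linarith [hg t])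
  rw [this]

theorem exists_near (a : UC h p) {y : M} (hy : dist a.pt y < r / 4) :
    ∃ b : UC h p, b.pt = y ∧ Near a b := by
  have hr := h.pos
  obtain ⟨f, hf⟩ := h.exists_short (show dist a.pt y < r by linarith)
  exact ⟨⟨y, a.cls.trans (Path.Homotopic.Quotient.mk f)⟩, rfl, f, fun t => lt_of_le_of_lt (hf t) hy, rfl⟩

/-- lengths of chains -/
inductive Len : UC h p → UC h p → ℝ → Prop
  | refl (a : UC h p) : Len a a 0
  | step {a b c : UC h p} {l : ℝ} : Len a b l → Near b c → Len a c (l + dist b.pt c.pt)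

theorem Len.nonneg {a b : UC h p} {l : ℝ} (hl : Len a b l) : 0 ≤ l := by
  induction hl with
  | refl => exact le_rfl
  | step _ _ ih => exact add_nonneg ih dist_nonneg

theorem Len.dist_le {a b : UC h p} {l : ℝ} (hl : Len a b l) : dist a.pt b.pt ≤ l := by
  induction hl with
  | refl => simp
  | step _ _ ih => exact (dist_triangle _ _ _).trans (by linarith)

theorem Len.of_near {a b : UC h p} (hab : Near a b) : Len a b (dist a.pt b.pt) := by
  have := Len.step (Len.refl a) hab
  rwa [zero_add] at this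

theorem Len.trans {a b c : UC h p} {l l' : ℝ} (hl : Len a b l) (hl' : Len b c l') :
    Len a c (l + l') := by
  induction hl' with
  | refl => rwa [add_zero]
  | step _ hn ih =>
    rw [← add_assoc]
    exact Len.step ih hn

theorem Len.symm {a b : UC h p} {l : ℝ} (hl : Len a b l) : Len b a l := by
  induction hl with
  | refl => exact Len.refl _
  | step _ hn ih =>
    have := (Len.of_near hn.symm).trans ih
    rwa [dist_comm, add_comm] at this

theorem Len.near {a b : UC h p} {l : ℝ} (hl : Len a b l) (h4 : l < r / 4) : Near a b := by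
  induction hl with
  | refl => exact near_refl _
  | @step b c l hab hbc ih =>
    have h1 : l < r / 4 := by
      have := @dist_nonneg _ _ b.pt c.pt
      linarith
    refine (ih h1).trans hbc ?_
    have := (Len.step hab hbc).dist_le
    linarith

/-- The lift of a path to the space of classes. -/
noncomputable def liftPath (f : C(unitInterval, M)) (α : Path.Homotopic.Quotient p (f 0)) (t : unitInterval) :
    UC h p :=
  ⟨f t, α.trans (Path.Homotopic.Quotient.mk ((⟨f, rfl, rfl⟩ : Path (f 0) (f 1)).subpath 0 t))⟩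

theorem near_liftPath (f : C(unitInterval, M)) (α : Path.Homotopic.Quotient p (f 0))
    (s t : unitInterval) (hst : ∀ u ∈ uIcc s t, dist (f u) (f s) < r / 4) :
    Near (liftPath (h := h) f α s) (liftPath f α t) := by
  let F : Path (f 0) (f 1) := ⟨f, rfl, rfl⟩
  let G : Path (liftPath (h := h) f α s).pt (liftPath (h := h) f α t).pt := F.subpath s t
  refine ⟨G, fun u => ?_, ?_⟩
  · have hm : G u ∈ range G := mem_range_self _
    have hr : range G = F '' (uIcc s t) := Path.range_subpath F s t
    rw [hr] at hm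
    obtain ⟨v, hv, hv'⟩ := hm
    rw [← hv']
    exact hst v hv
  · change α.trans (Path.Homotopic.Quotient.mk (F.subpath 0 t)) =
      (α.trans (Path.Homotopic.Quotient.mk (F.subpath 0 s))).trans
        (Path.Homotopic.Quotient.mk (F.subpath s t))
    rw [trans_assoc]
    congr 1
    rw [← Path.Homotopic.Quotient.mk_trans, Path.Homotopic.Quotient.eq]
    exact ⟨(Path.Homotopy.subpathTransSubpath _ 0 s t).symm⟩

theorem liftPath_zero (f : C(unitInterval, M)) (α : Path.Homotopic.Quotient p (f 0)) :
    liftPath (h := h) f α 0 = ⟨f 0, α⟩ := by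
  let F : Path (f 0) (f 1) := ⟨f, rfl, rfl⟩
  have : F.subpath 0 0 = Path.refl (F 0) := Path.subpath_self F 0
  change (⟨f 0, α.trans (Path.Homotopic.Quotient.mk (F.subpath 0 0))⟩ : UC h p) = ⟨f 0, α⟩
  rw [this]
  congr 1
  exact Path.Homotopic.Quotient.trans_refl α

theorem liftPath_one (f : C(unitInterval, M)) (α : Path.Homotopic.Quotient p (f 0)) :
    liftPath (h := h) f α 1 = ⟨f 1, α.trans (Path.Homotopic.Quotient.mk ⟨f, rfl, rfl⟩)⟩ := by
  let F : Path (f 0) (f 1) := ⟨f, rfl, rfl⟩
  have : F.subpath 0 1 = F.cast F.source F.target := Path.subpath_zero_one F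
  change (⟨f 1, α.trans (Path.Homotopic.Quotient.mk (F.subpath 0 1))⟩ : UC h p) =
    ⟨f 1, α.trans (Path.Homotopic.Quotient.mk F)⟩
  rw [this]
  rfl

theorem near_liftPath_grid (f : C(unitInterval, M)) (α : Path.Homotopic.Quotient p (f 0)) {N : ℕ}
    (hN : ∀ s t : unitInterval, |(s : ℝ) - t| ≤ 1 / N → dist (f s) (f t) < r / 4) {i : ℕ}
    (hi : i < N) :
    Near (liftPath (h := h) f α (tt N i)) (liftPath f α (tt N (i + 1))) := by
  apply near_liftPath
  intro u hu
  apply hN
  have h1 := tt_sub hi
  have h2 : |(u : ℝ) - tt N i| ≤ |((tt N (i + 1) : unitInterval) : ℝ) - tt N i| := by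
    have h3 : (u : ℝ) ∈ uIcc ((tt N i : unitInterval) : ℝ) (tt N (i + 1)) := by
      rcases mem_uIcc.1 hu with ⟨a, b⟩ | ⟨a, b⟩
      · exact mem_uIcc.2 (Or.inl ⟨a, b⟩)
      · exact mem_uIcc.2 (Or.inr ⟨a, b⟩)
    exact abs_sub_left_of_mem_uIcc h3
  rw [h1] at h2
  exact h2

/-- Any two points are joined by a chain. -/
theorem exists_len (a b : UC h p) : ∃ l, Len a b l := by
  obtain ⟨y, α⟩ := a
  obtain ⟨z, β⟩ := b
  obtain ⟨g, hg⟩ := Path.Homotopic.Quotient.mk_surjective (α.symm.trans β)
  have hβ : β = α.trans (Path.Homotopic.Quotient.mk g) := by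
    rw [hg, ← trans_assoc]
    simp
  rw [hβ]
  clear hβ hg
  obtain ⟨f, hs, ht⟩ := g
  subst hs ht
  obtain ⟨N, hN0, hN⟩ := unif f.continuous (show 0 < r / 4 by have := h.pos; linarith)
  have key : ∀ i ≤ N, ∃ l, Len (⟨f 0, α⟩ : UC h p) (liftPath f α (tt N i)) l := by
    intro i
    induction i with
    | zero =>
      intro _
      rw [tt_zero, liftPath_zero]
      exact ⟨0, Len.refl _⟩
    | succ i ih =>
      intro hi
      obtain ⟨l, hl⟩ := ih (by omega)
      exact ⟨_, Len.step hl (near_liftPath_grid f α (hN N le_rfl) hi)⟩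
  obtain ⟨l, hl⟩ := key N le_rfl
  rw [tt_self hN0, liftPath_one] at hl
  exact ⟨l, hl⟩

noncomputable instance : MetricSpace (UC h p) where
  dist a b := sInf {l | Len a b l}
  dist_self a := by
    apply le_antisymm
    · exact csInf_le ⟨0, fun l hl => Len.nonneg hl⟩ (Len.refl a)
    · exact le_csInf ⟨0, Len.refl a⟩ (fun l hl => Len.nonneg hl)
  dist_comm a b := by
    congr 1
    ext l
    exact ⟨Len.symm, Len.symm⟩
  dist_triangle a b c := by
    have hb : ∀ a b : UC h p, BddBelow {l | Len a b l} := fun a b => ⟨0, fun l hl => Len.nonneg hl⟩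
    refine le_of_forall_pos_le_add fun ε hε => ?_
    obtain ⟨l, hl, hl'⟩ := exists_lt_of_csInf_lt (exists_len a b)
      (lt_add_of_pos_right (sInf {l | Len a b l}) (half_pos hε))
    obtain ⟨m, hm, hm'⟩ := exists_lt_of_csInf_lt (exists_len b c)
      (lt_add_of_pos_right (sInf {l | Len b c l}) (half_pos hε))
    have := csInf_le (hb a c) (Len.trans hl hm)
    linarith
  eq_of_dist_eq_zero {a b} hab := by
    have hr := h.pos
    obtain ⟨l, hl, hl'⟩ := exists_lt_of_csInf_lt (exists_len a b)
      (show sInf {l | Len a b l} < r / 4 by rw [hab]; linarith)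
    have hn : Near a b := hl.near hl'
    have h1 : dist a.pt b.pt ≤ sInf {l | Len a b l} :=
      le_csInf (exists_len a b) fun l hl => hl.dist_le
    rw [hab] at h1
    have h2 : a.pt = b.pt := dist_le_zero.1 h1
    exact near_unique (near_refl a) hn h2

theorem dist_def (a b : UC h p) : dist a b = sInf {l | Len a b l} := rfl

theorem dist_le_of_len {a b : UC h p} {l : ℝ} (hl : Len a b l) : dist a b ≤ l :=
  csInf_le ⟨0, fun _ hl => Len.nonneg hl⟩ hl

theorem exists_len_lt {a b : UC h p} {c : ℝ} (hc : dist a b < c) : ∃ l, Len a b l ∧ l < c :=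
  exists_lt_of_csInf_lt (exists_len a b) hc

theorem pt_dist_le (a b : UC h p) : dist a.pt b.pt ≤ dist a b :=
  le_csInf (exists_len a b) fun _ hl => hl.dist_le

theorem near_of_dist {a b : UC h p} (hab : dist a b < r / 4) : Near a b := by
  obtain ⟨l, hl, hl'⟩ := exists_len_lt hab
  exact hl.near hl'

theorem Near.dist_eq {a b : UC h p} (hab : Near a b) : dist a b = dist a.pt b.pt :=
  le_antisymm (dist_le_of_len (Len.of_near hab)) (pt_dist_le a b)

theorem continuous_pt : Continuous (UC.pt : UC h p → M) := by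
  rw [continuous_iff_continuousAt]
  intro a
  unfold ContinuousAt
  rw [tendsto_iff_dist_tendsto_zero]
  refine squeeze_zero (fun _ => dist_nonneg) (fun b => pt_dist_le b a) ?_
  have : Continuous (fun b : UC h p => dist b a) := by fun_prop
  simpa using this.tendsto a

end UC

end Pool.Agent.Work.MP_f0c219_gt.Hadamard
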