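import Pool.Agent.Work.MP_f0c219_gt.Flip
import Pool.Agent.Work.MP_f0c219_gt_h82.Obstruct
import Pool.Agent.Work.MP_f0c219_gt_h18.PushoutQI
import Pool.Agent.Work.MP_f0c219_gt_h18.Planes
import Pool.Agent.Work.MP_f0c219_gt_h67.Hadamard

/-!
# Block J: group side of the assembly
-/

open Set Topology
open scoped ComplexConjugate commutatorElement

namespace Pool.Agent.Work.MP_f0c219_gt.Assembly

/-! ## Transfer of quasi-isometries -/

theorem wordLength_equiv {G G' : Type*} [Group G] [Group G'] (e : G' ≃* G) (S : Set G) (g : G') :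
    wordLength (e ⁻¹' S) g = wordLength S (e g) := by
  unfold wordLength
  congr 1
  ext n
  constructor
  · rintro ⟨l, hl, hm, hp⟩
    refine ⟨l.map e, by simpa using hl, ?_, ?_⟩
    · intro x hx
      rw [List.mem_map] at hx
      obtain ⟨y, hy, rfl⟩ := hx
      rcases hm y hy with h | h
      · exact Or.inl h
      · right
        rw [← map_inv]
        exact h
    · rw [← hp, map_list_prod]
  · rintro ⟨l, hl, hm, hp⟩
    refine ⟨l.map e.symm, by simpa using hl, ?_, ?_⟩
    · intro x hx
      rw [List.mem_map] at hx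
      obtain ⟨y, hy, rfl⟩ := hx
      rcases hm y hy with h | h
      · left
        rw [mem_preimage, MulEquiv.apply_symm_apply]
        exact h
      · right
        rw [mem_preimage, map_inv, MulEquiv.apply_symm_apply]
        exact h
    · have := congrArg e.symm hp
      rw [MulEquiv.symm_apply_apply, map_list_prod] at this
      exact this

theorem closure_preimage {G G' : Type*} [Group G] [Group G'] (e : G' ≃* G) {S : Set G}
    (hS : Subgroup.closure S = ⊤) : Subgroup.closure (e ⁻¹' S) = ⊤ := by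
  rw [eq_top_iff]
  intro g _
  have h1 : e g ∈ Subgroup.closure S := by rw [hS]; trivial
  have h2 : ∀ x ∈ Subgroup.closure S, e.symm x ∈ Subgroup.closure (e ⁻¹' S) := by
    intro x hx
    induction hx using Subgroup.closure_induction with
    | mem x hx =>
      apply Subgroup.subset_closure
      rw [mem_preimage, MulEquiv.apply_symm_apply]
      exact hx
    | one => rw [map_one]; exact Subgroup.one_mem _
    | mul x y hx hy h1 h2 => rw [map_mul]; exact Subgroup.mul_mem _ h1 h2
    | inv x hx h1 => rw [map_inv]; exact Subgroup.inv_mem _ h1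
  have := h2 _ h1
  rwa [MulEquiv.symm_apply_apply] at this

theorem transfer_equiv {G H G' H' : Type*} [Group G] [Group H] [Group G'] [Group H']
    (h : QuasiIsometric G H) (e : G' ≃* G) (e' : H' ≃* H) : QuasiIsometric G' H' := by
  obtain ⟨S, T, hS, hT, hSg, hTg, f, K, h1, h2, h3⟩ := h
  refine ⟨e ⁻¹' S, e' ⁻¹' T, hS.preimage e.injective.injOn, hT.preimage e'.injective.injOn,
    closure_preimage e hSg, closure_preimage e' hTg, fun x => e'.symm (f (e x)), K, ?_, ?_, ?_⟩
  · intro x y
    rw [wordLength_equiv, wordLength_equiv, map_mul, map_mul, map_inv, map_inv,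
      MulEquiv.apply_symm_apply, MulEquiv.apply_symm_apply]
    exact h1 _ _
  · intro x y
    rw [wordLength_equiv, wordLength_equiv, map_mul, map_mul, map_inv, map_inv,
      MulEquiv.apply_symm_apply, MulEquiv.apply_symm_apply]
    exact h2 _ _
  · intro k
    obtain ⟨x, hx⟩ := h3 (e' k)
    refine ⟨e.symm x, ?_⟩
    rw [wordLength_equiv, map_mul, map_inv, MulEquiv.apply_symm_apply, MulEquiv.apply_symm_apply]
    exact hx

/-- J3 -/
theorem transfer {G H G' H' : Type*} [Group G] [Group H] [Group G'] [Group H']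
    (h : QuasiIsometric G H) (e : Nonempty (G' ≃* Gᵐᵒᵖ)) (e' : Nonempty (H' ≃* Hᵐᵒᵖ)) :
    QuasiIsometric G' H' := by
  obtain ⟨e⟩ := e
  obtain ⟨e'⟩ := e'
  exact transfer_equiv h (e.trans (MulEquiv.inv' G).symm) (e'.trans (MulEquiv.inv' H).symm)

/-- Precomposing the edge maps with an automorphism of the edge group. -/
def pushoutEquiv {ι : Type*} {H : Type*} [Group H] {G : ι → Type*} [∀ i, Group (G i)]
    (φ φ' : ∀ i, H →* G i) (τ : H ≃* H) (h : ∀ i x, φ' i x = φ i (τ x)) :
    Monoid.PushoutI φ' ≃* Monoid.PushoutI φ :=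
  MonoidHom.toMulEquiv
    (Monoid.PushoutI.lift (fun i => Monoid.PushoutI.of i)
      ((Monoid.PushoutI.base φ).comp τ.toMonoidHom) (by
        intro i
        ext x
        simp only [MonoidHom.comp_apply, h, Monoid.PushoutI.of_apply_eq_base]
        rfl))
    (Monoid.PushoutI.lift (fun i => Monoid.PushoutI.of i)
      ((Monoid.PushoutI.base φ').comp τ.symm.toMonoidHom) (by
        intro i
        ext x
        have h1 : φ i x = φ' i (τ.symm x) := by rw [h, MulEquiv.apply_symm_apply]
        simp only [MonoidHom.comp_apply, h1, Monoid.PushoutI.of_apply_eq_base]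
        rfl))
    (by
      apply Monoid.PushoutI.hom_ext
      · intro i
        ext x
        simp only [MonoidHom.comp_apply, Monoid.PushoutI.lift_of, MonoidHom.id_apply]
      · ext x
        simp only [MonoidHom.comp_apply, Monoid.PushoutI.lift_base, MonoidHom.id_apply]
        change Monoid.PushoutI.base φ' (τ.symm (τ x)) = _
        rw [MulEquiv.symm_apply_apply])
    (by
      apply Monoid.PushoutI.hom_ext
      · intro i
        ext x
        simp only [MonoidHom.comp_apply, Monoid.PushoutI.lift_of, MonoidHom.id_apply]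
      · ext x
        simp only [MonoidHom.comp_apply, Monoid.PushoutI.lift_base, MonoidHom.id_apply]
        change Monoid.PushoutI.base φ (τ (τ.symm x)) = _
        rw [MulEquiv.apply_symm_apply])

/-! ## The holonomy group -/

open Model Borromean

theorem toC_neg (γ : SL2Gi) : toC (-γ) = -toC γ := by
  apply Subtype.ext
  apply Matrix.ext
  intro i j
  change GaussianInt.toComplex (-(γ i j)) = -(GaussianInt.toComplex (γ i j))
  rw [map_neg]

/-- The homomorphism from the arithmetic group to the holonomy group. -/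
noncomputable def pr (γ : SL2Gi) (hγ : InGam γ) : PG :=
  ⟨MulAction.toPermHom SL2C H3 (toC γ), mem_PG.2 ⟨γ, hγ, fun _ => rfl⟩⟩

theorem pr_apply (γ : SL2Gi) (hγ : InGam γ) (q : H3) : (pr γ hγ).1 q = toC γ • q := rfl

theorem pr_mul {γ δ : SL2Gi} (hγ : InGam γ) (hδ : InGam δ) :
    pr (γ * δ) (inGam_mul hγ hδ) = pr γ hγ * pr δ hδ := by
  apply Subtype.ext
  change MulAction.toPermHom SL2C H3 (toC (γ * δ)) = _
  rw [map_mul, map_mul]
  rfl

theorem pr_inv {γ : SL2Gi} (hγ : InGam γ) : pr γ⁻¹ (inGam_inv hγ) = (pr γ hγ)⁻¹ := by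
  apply Subtype.ext
  change MulAction.toPermHom SL2C H3 (toC γ⁻¹) = _
  rw [map_inv, map_inv]
  rfl

theorem pr_surj (σ : PG) : ∃ (γ : SL2Gi) (hγ : InGam γ), pr γ hγ = σ := by
  obtain ⟨γ, hγ, h⟩ := mem_PG.1 σ.2
  refine ⟨γ, hγ, ?_⟩
  apply Subtype.ext
  ext1 q
  exact (h q).symm

theorem pr_eq_iff {γ δ : SL2Gi} (hγ : InGam γ) (hδ : InGam δ) (h : pr γ hγ = pr δ hδ) :
    δ = γ ∨ δ = -γ := by
  have h1 : toC (γ⁻¹ * δ) • pt 0 1 one_pos = pt 0 1 one_pos := by
    have := congrArg (fun σ : PG => σ.1 (pt 0 1 one_pos)) h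
    simp only [pr_apply] at this
    rw [map_mul, mul_smul, ← this, map_inv, inv_smul_smul]
  rcases gam_free (inGam_mul (inGam_inv hγ) hδ) _ h1 with h2 | h2
  · left
    have h3 : γ⁻¹ * δ = 1 := toC_injective (by rw [h2, map_one])
    exact (inv_mul_eq_one.1 h3).symm
  · right
    have h3 : γ⁻¹ * δ = -1 := toC_injective (by rw [h2, toC_neg, map_one])
    have h4 : δ = γ * -1 := by rw [← h3, mul_inv_cancel_left]
    rw [h4, mul_neg, mul_one]

/-- The parabolic element with coordinates `a`, `b`. -/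
noncomputable def tr (a b : ℤ) : PG :=
  ⟨trPerm (Multiplicative.ofAdd ((a : ℂ) * mu + (b : ℂ) * lam)), trPerm_mem a b⟩

theorem pr_Tr (a b : ℤ) : pr (Tr (a * ⟨1, 1⟩ + b * ⟨-2, 2⟩)) (inGam_Tr a b) = tr a b := by
  apply Subtype.ext
  ext1 q
  rw [pr_apply, Tr_smul]
  change _ = translate ((a : ℂ) * mu + (b : ℂ) * lam) q
  congr 1
  rw [map_add, map_mul, map_mul]
  simp only [GaussianInt.toComplex_def, Zsqrtd.re_intCast, Zsqrtd.im_intCast, mu, lam]
  push_cast
  ring

theorem tr_mul (a b a' b' : ℤ) : tr a b * tr a' b' = tr (a + a') (b + b') := by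
  apply Subtype.ext
  change trPerm _ * trPerm _ = trPerm _
  rw [← map_mul, ← ofAdd_add]
  congr 2
  push_cast
  ring

theorem tr_injective {a b a' b' : ℤ} (h : tr a b = tr a' b') : a = a' ∧ b = b' := by
  have h1 := congrArg (fun σ : PG => (σ.1 (pt 0 1 one_pos)).1.1) h
  have h2 : (0 : ℂ) + ((a : ℂ) * mu + (b : ℂ) * lam) = 0 + ((a' : ℂ) * mu + (b' : ℂ) * lam) := h1
  rw [zero_add, zero_add] at h2
  have hre := congrArg Complex.re h2
  have him := congrArg Complex.im h2
  simp [mu_re, mu_im, lam_re, lam_im] at hre him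
  constructor
  · have : (a : ℝ) = a' := by linarith
    exact_mod_cast this
  · have : (b : ℝ) = b' := by linarith
    exact_mod_cast this

theorem per_apply (v : Multiplicative Z3) :
    per v = (tr v.toAdd.1 v.toAdd.2.1, Multiplicative.ofAdd v.toAdd.2.2) := rfl

theorem per_injective : Function.Injective per := by
  intro v w h
  rw [per_apply, per_apply] at h
  have h1 := congrArg Prod.fst h
  have h2 := congrArg Prod.snd h
  obtain ⟨e1, e2⟩ := tr_injective h1
  have e3 : v.toAdd.2.2 = w.toAdd.2.2 := Multiplicative.ofAdd.injective h2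
  apply Multiplicative.toAdd.injective
  exact Prod.ext e1 (Prod.ext e2 e3)

theorem fg_VG : Group.FG VG := by
  have h1 : Group.FG PG := by
    have hf : Function.Surjective
        (((MulAction.toPermHom SL2C H3).comp (toC.comp Gam.subtype)).codRestrict PG
          (fun γ => mem_PG.2 ⟨γ.1, γ.2, fun _ => rfl⟩)) := by
      intro σ
      obtain ⟨γ, hγ, h⟩ := pr_surj σ
      refine ⟨⟨γ, hγ⟩, ?_⟩
      rw [← h]
      rfl
    exact Group.fg_of_surjective hf
  have h2 : Group.FG (Multiplicative ℤ) := inferInstance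
  rw [Group.fg_def] at h1 h2 ⊢
  have := h1.prod h2
  rwa [Subgroup.top_prod_top] at this

/-- The quasi-morphism on the holonomy group, made equivariant under the parabolic subgroup. -/
theorem exists_qt : ∃ qt : PG → ℤ, (∀ (a b : ℤ) (σ : PG), qt (tr a b * σ) = b + qt σ) ∧
    ∀ s : PG, ∃ C : ℤ, ∀ x : PG, |qt (s * x) - qt x| ≤ C := by
  obtain ⟨q, hq, hneg, hT⟩ := BlockF.exists_quasimorphism
  choose γ hγ hγσ using pr_surj
  set qP : PG → ℤ := fun σ => q (γ σ) with hqP
  have hpr : ∀ (δ : SL2Gi) (hδ : InGam δ), qP (pr δ hδ) = q δ := by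
    intro δ hδ
    rcases pr_eq_iff (hγ (pr δ hδ)) hδ (hγσ (pr δ hδ)) with h | h
    · rw [hqP]; simp only; rw [← h]
    · rw [hqP]
      simp only
      conv_rhs => rw [h]
      rw [hneg _ (hγ _)]
  have hmul : ∀ σ τ : PG, |qP (σ * τ) - qP σ - qP τ| ≤ 3 := by
    intro σ τ
    have h1 : σ * τ = pr (γ σ * γ τ) (inGam_mul (hγ σ) (hγ τ)) := by
      rw [pr_mul (hγ σ) (hγ τ), hγσ, hγσ]
    rw [h1, hpr]
    exact hq _ _ (hγ σ) (hγ τ)
  have htr : ∀ a b : ℤ, qP (tr a b) = b := by
    intro a b
    rw [← pr_Tr, hpr]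
    exact hT a b
  set A : PG → Set ℤ := fun σ => {n | ∃ a b : ℤ, n = qP (tr a b * σ) - b} with hA
  have hAub : ∀ σ, ∀ n ∈ A σ, n ≤ qP σ + 3 := by
    rintro σ n ⟨a, b, rfl⟩
    have := hmul (tr a b) σ
    rw [htr, abs_le] at this
    linarith [this.2]
  have hAlb : ∀ σ, ∀ n ∈ A σ, qP σ - 3 ≤ n := by
    rintro σ n ⟨a, b, rfl⟩
    have := hmul (tr a b) σ
    rw [htr, abs_le] at this
    linarith [this.1]
  have hne : ∀ σ, (A σ).Nonempty := fun σ => ⟨_, 0, 0, rfl⟩
  have hbdd : ∀ σ, BddAbove (A σ) := fun σ => ⟨_, hAub σ⟩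
  have hmem : ∀ σ, sSup (A σ) ∈ A σ := fun σ => Int.csSup_mem (hne σ) (hbdd σ)
  refine ⟨fun σ => sSup (A σ), ?_, ?_⟩
  · have key : ∀ (a b : ℤ) (σ : PG), sSup (A (tr a b * σ)) ≤ b + sSup (A σ) := by
      intro a b σ
      obtain ⟨a', b', h⟩ := hmem (tr a b * σ)
      rw [h, ← mul_assoc, tr_mul]
      have : qP (tr (a' + a) (b' + b) * σ) - (b' + b) ≤ sSup (A σ) :=
        le_csSup (hbdd σ) ⟨a' + a, b' + b, rfl⟩
      linarith
    intro a b σ
    refine le_antisymm (key a b σ) ?_
    have := key (-a) (-b) (tr a b * σ)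
    rw [← mul_assoc, tr_mul] at this
    have h0 : tr (-a + a) (-b + b) = 1 := by
      rw [neg_add_cancel, neg_add_cancel]
      apply Subtype.ext
      change trPerm _ = 1
      simp
    rw [h0, one_mul] at this
    linarith
  · intro s
    refine ⟨|qP s| + 9, ?_⟩
    intro x
    have h1 := hmul s x
    have h2 := hAub _ _ (hmem (s * x))
    have h3 := hAlb _ _ (hmem (s * x))
    have h4 := hAub _ _ (hmem x)
    have h5 := hAlb _ _ (hmem x)
    have h6 := neg_abs_le (qP s)
    have h7 := le_abs_self (qP s)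
    rw [abs_le] at h1 ⊢
    constructor <;> linarith [h1.1, h1.2]

/-! ## J1 -/

/-- The shear of the edge group. -/
def shear : Z3 ≃+ Z3 where
  toFun v := (v.1, v.2.1, v.2.2 + v.2.1)
  invFun v := (v.1, v.2.1, v.2.2 - v.2.1)
  left_inv v := by ext1 <;> simp
  right_inv v := by ext1 <;> simp
  map_add' v w := by
    ext1
    · simp
    · simp only [Prod.fst_add, Prod.snd_add, Prod.mk_add_mk]
      congr 1
      ring

/-- The twisting bijection of the vertex group. -/
def tw (qt : PG → ℤ) : VG ≃ VG where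
  toFun x := (x.1, x.2 * Multiplicative.ofAdd (qt x.1))
  invFun x := (x.1, x.2 * Multiplicative.ofAdd (-qt x.1))
  left_inv x := by
    ext1
    · rfl
    · simp [mul_assoc]
  right_inv x := by
    ext1
    · rfl
    · simp [mul_assoc]

theorem finite_aux {qt : PG → ℤ} (hqt : ∀ s : PG, ∃ C : ℤ, ∀ x : PG, |qt (s * x) - qt x| ≤ C)
    (s : VG) (P : Set VG) (hP : ∀ y ∈ P, ∃ x : VG, y = (s.1, s.2 * Multiplicative.ofAdd
      (qt (s.1 * x.1) - qt x.1))) : P.Finite := by
  obtain ⟨C, hC⟩ := hqt s.1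
  refine ((Set.finite_Icc (-C) C).image (fun n : ℤ =>
    ((s.1, s.2 * Multiplicative.ofAdd n) : VG))).subset ?_
  intro y hy
  obtain ⟨x, rfl⟩ := hP y hy
  exact ⟨qt (s.1 * x.1) - qt x.1, abs_le.1 (hC x.1), rfl⟩

theorem quasiIsometric_flip : QuasiIsometric (Monoid.PushoutI (flip 0).phi)
    (Monoid.PushoutI (flip 1).phi) := by
  obtain ⟨qt, hq1, hq2⟩ := exists_qt
  set τ : Multiplicative Z3 ≃* Multiplicative Z3 := AddEquiv.toMultiplicative shear with hτ
  set φ' : ∀ _ : Bool, Multiplicative Z3 →* VG := fun i => ((flip 1).phi i).comp τ.toMonoidHom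
    with hφ'
  have e := pushoutEquiv (flip 1).phi φ' τ (fun i x => rfl)
  have hinj : ∀ m : ℤ, ∀ i, Function.Injective ((flip m).phi i) := by
    intro m i
    cases i
    · intro v w h
      have h1 := per_injective h
      exact (flip m).E.injective h1
    · exact per_injective
  have hmain : QuasiIsometric (Monoid.PushoutI (flip 0).phi) (Monoid.PushoutI φ') := by
    refine BlockE.pushout_quasiIsometric (fun _ => fg_VG) (flip 0).phi φ' (hinj 0)
      (fun i => (hinj 1 i).comp τ.injective) (fun i => cond i (tw qt) (Equiv.refl _)) ?_ ?_ ?_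
    · intro i h x
      cases i
      · change per _ * x = per _ * x
        congr 2
        apply Multiplicative.toAdd.injective
        change flipE 0 h.toAdd = flipE 1 (shear h.toAdd)
        rw [flipE_apply, flipE_apply]
        ext1
        · rfl
        · simp [shear]
      · change tw qt (per h * x) = per (τ h) * tw qt x
        rw [per_apply, per_apply]
        ext1
        · rfl
        · change (Multiplicative.ofAdd h.toAdd.2.2 * x.2) *
            Multiplicative.ofAdd (qt (tr h.toAdd.1 h.toAdd.2.1 * x.1)) =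
            Multiplicative.ofAdd (h.toAdd.2.2 + h.toAdd.2.1) *
              (x.2 * Multiplicative.ofAdd (qt x.1))
          rw [hq1, ofAdd_add, ofAdd_add]
          ac_rfl
    · intro i s
      cases i
      · refine (Set.finite_singleton s).subset ?_
        rintro y ⟨x, rfl⟩
        change s * x * x⁻¹ = s
        rw [mul_inv_cancel_right]
      · apply finite_aux hq2 s
        rintro y ⟨x, rfl⟩
        refine ⟨x, ?_⟩
        change ((s.1 * x.1, s.2 * x.2 * Multiplicative.ofAdd (qt (s.1 * x.1))) : VG) *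
          (x.1, x.2 * Multiplicative.ofAdd (qt x.1))⁻¹ = _
        rw [Prod.inv_mk, Prod.mk_mul_mk, mul_inv_cancel_right]
        ext1
        · rfl
        · simp only [ofAdd_sub, mul_inv, div_eq_mul_inv]
          have : x.2 * x.2⁻¹ = 1 := mul_inv_cancel _
          calc s.2 * x.2 * Multiplicative.ofAdd (qt (s.1 * x.1)) *
              (x.2⁻¹ * (Multiplicative.ofAdd (qt x.1))⁻¹) = (x.2 * x.2⁻¹) *
              (s.2 * (Multiplicative.ofAdd (qt (s.1 * x.1)) *
                (Multiplicative.ofAdd (qt x.1))⁻¹)) := by ac_rfl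
            _ = _ := by rw [this, one_mul]
    · intro i s
      cases i
      · refine (Set.finite_singleton s).subset ?_
        rintro y ⟨x, rfl⟩
        change s * x * x⁻¹ = s
        rw [mul_inv_cancel_right]
      · have hq3 : ∀ s : PG, ∃ C : ℤ, ∀ x : PG, |(fun y => -qt y) (s * x) - (fun y => -qt y) x| ≤ C := by
          intro s
          obtain ⟨C, hC⟩ := hq2 s
          refine ⟨C, fun x => ?_⟩
          have := hC x
          simp only
          rw [abs_sub_comm] at this
          convert this using 2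
          ring
        apply finite_aux (qt := fun y => -qt y) hq3 s
        rintro y ⟨x, rfl⟩
        refine ⟨x, ?_⟩
        change ((s.1 * x.1, s.2 * x.2 * Multiplicative.ofAdd (-qt (s.1 * x.1))) : VG) *
          (x.1, x.2 * Multiplicative.ofAdd (-qt x.1))⁻¹ = _
        rw [Prod.inv_mk, Prod.mk_mul_mk, mul_inv_cancel_right]
        ext1
        · rfl
        · simp only [ofAdd_sub, mul_inv, div_eq_mul_inv]
          have : x.2 * x.2⁻¹ = 1 := mul_inv_cancel _
          calc s.2 * x.2 * Multiplicative.ofAdd (-qt (s.1 * x.1)) *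
              (x.2⁻¹ * (Multiplicative.ofAdd (-qt x.1))⁻¹) = (x.2 * x.2⁻¹) *
              (s.2 * (Multiplicative.ofAdd (-qt (s.1 * x.1)) *
                (Multiplicative.ofAdd (-qt x.1))⁻¹)) := by ac_rfl
            _ = _ := by rw [this, one_mul]
  exact transfer_equiv hmain (MulEquiv.refl _) e.symm

/-! ## J4 -/

theorem commutator_PG : ⁅pr zM⁻¹ (inGam_inv inGam_zM), pr yM⁻¹ (inGam_inv inGam_yM)⁆ = tr 0 1 := by
  have h1 : InGam ⁅zM⁻¹, yM⁻¹⁆ := by
    rw [commutatorElement_def]
    exact inGam_mul (inGam_mul (inGam_mul (inGam_inv inGam_zM) (inGam_inv inGam_yM))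
      (inGam_inv (inGam_inv inGam_zM))) (inGam_inv (inGam_inv inGam_yM))
  have h2 : ⁅pr zM⁻¹ (inGam_inv inGam_zM), pr yM⁻¹ (inGam_inv inGam_yM)⁆ = pr _ h1 := by
    rw [commutatorElement_def, ← pr_inv, ← pr_inv, ← pr_mul, ← pr_mul, ← pr_mul]
    rfl
  rw [h2]
  have h3 := pr_Tr 0 1
  apply Subtype.ext
  ext1 q
  rw [← h3, pr_apply, pr_apply, commutator_eq]
  have h4 : ((0 : ℤ) : GaussianInt) * ⟨1, 1⟩ + ((1 : ℤ) : GaussianInt) * ⟨-2, 2⟩ = ⟨-2, 2⟩ := by
    simp
  rw [h4, toC_neg]
  apply herm_injective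
  rw [smul_def, smul_def, herm_mob, herm_mob]
  simp

theorem action_of_admits {M : Type} [t : TopologicalSpace M] [CompactSpace M]
    (h : AdmitsLocallyCAT0 M) (p : M) :
    ∃ (X : Type) (_ : MetricSpace X) (_ : MulAction (FundamentalGroup M p) X), Nonempty X ∧
      IsCAT0 X ∧ (∀ (g : FundamentalGroup M p) (x y : X), dist (g • x) (g • y) = dist x y) ∧
      ∃ δ : ℝ, 0 < δ ∧ ∀ g : FundamentalGroup M p, g ≠ 1 → ∀ x : X, δ ≤ dist x (g • x) := by
  obtain ⟨m, hm, -, hloc⟩ := h
  subst hm
  exact Hadamard.cartan_hadamard hloc p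

theorem no_action {X : Type} [MetricSpace X] [Nonempty X] (hX : IsCAT0 X)
    [MulAction (Monoid.PushoutI (flip 1).phi) X]
    (hiso : ∀ (g : Monoid.PushoutI (flip 1).phi) (x y : X), dist (g • x) (g • y) = dist x y)
    (hdisp : ∃ δ : ℝ, 0 < δ ∧ ∀ g : Monoid.PushoutI (flip 1).phi, g ≠ 1 →
      ∀ x : X, δ ≤ dist x (g • x)) : False := by
  have hinj : ∀ i, Function.Injective ((flip 1).phi i) := by
    intro i
    cases i
    · intro v w h
      have h1 := per_injective h
      exact (flip 1).E.injective h1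
    · exact per_injective
  let I (i : Bool) (x : VG) : Monoid.PushoutI (flip 1).phi := Monoid.PushoutI.of i x
  have hI1 : ∀ i x y, I i (x * y) = I i x * I i y := fun i x y => map_mul _ x y
  have hIc : ∀ i x y, I i ⁅x, y⁆ = ⁅I i x, I i y⁆ := fun i x y => map_commutatorElement _ x y
  have hrel : ∀ v : Multiplicative Z3, I true (per v) =
      I false (per (Multiplicative.ofAdd (flipE 1 v.toAdd))) := by
    intro v
    have h1 := Monoid.PushoutI.of_apply_eq_base (flip 1).phi true v
    have h2 := Monoid.PushoutI.of_apply_eq_base (flip 1).phi false v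
    exact h1.trans h2.symm
  set Y : PG := pr zM⁻¹ (inGam_inv inGam_zM) with hY
  set Z : PG := pr yM⁻¹ (inGam_inv inGam_yM) with hZ
  have hYZ : ⁅Y, Z⁆ = tr 0 1 := commutator_PG
  let c : VG := (1, Multiplicative.ofAdd 1)
  have hc : c = per (Multiplicative.ofAdd (0, 0, 1)) := by
    rw [per_apply]
    ext1
    · change (1 : PG) = tr 0 0
      apply Subtype.ext
      change _ = trPerm _
      simp
    · rfl
  have hcomm : ∀ (i : Bool) (x : PG), Commute (I i c) (I i (x, 1)) := by
    intro i x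
    change I i c * I i (x, 1) = I i (x, 1) * I i c
    rw [← hI1, ← hI1]
    have : c * (x, 1) = (x, 1) * c := by
      ext1
      · change 1 * x = x * 1
        rw [one_mul, mul_one]
      · change Multiplicative.ofAdd (1 : ℤ) * 1 = 1 * Multiplicative.ofAdd (1 : ℤ)
        rw [one_mul, mul_one]
    rw [this]
  have hcm : ∀ i, I i (tr 0 1, 1) = ⁅I i (Y, 1), I i (Z, 1)⁆ := by
    intro i
    rw [← hIc]
    congr 1
    ext1
    · exact hYZ.symm
    · change (1 : Multiplicative ℤ) = ⁅(1 : Multiplicative ℤ), (1 : Multiplicative ℤ)⁆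
      rw [commutatorElement_self]
  have hperl : per (Multiplicative.ofAdd (0, 1, 0)) = (tr 0 1, 1) := rfl
  -- the two relations
  have r1 : I true c = I false (tr 0 1, 1) := by
    rw [hc, hrel, ← hperl]
    congr 1
  have r2 : I true (tr 0 1, 1) = I false (per (Multiplicative.ofAdd (0, -1, 1))) := by
    rw [← hperl, hrel]
    congr 1
  have r3 : I false c = I true (tr 0 1, 1) * I true c := by
    rw [r1, r2, ← hperl, ← hI1, ← map_mul, hc]
    rfl
  have hf : I true c = 1 := Obstruct.obstruction hX hiso hdisp (hcomm true Y) (hcomm true Z)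
    (hcm true) r3 (hcomm false Y) (hcomm false Z) (r1.trans (hcm false))
  have h1 : c = 1 := Monoid.PushoutI.of_injective hinj true (hf.trans (map_one _).symm)
  have h2 := congrArg Prod.snd h1
  have h3 : (1 : ℤ) = 0 := Multiplicative.ofAdd.injective h2
  omega

theorem not_admits_aux {M : Type} [TopologicalSpace M] [CompactSpace M] (p : M)
    (e : Nonempty (FundamentalGroup M p ≃* (Monoid.PushoutI (flip 1).phi)ᵐᵒᵖ)) :
    ¬ AdmitsLocallyCAT0 M := by
  intro h
  obtain ⟨e⟩ := e
  obtain ⟨X, hXm, hXa, hne, hX, hiso, δ, hδ, hdisp⟩ := action_of_admits h p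
  let ψ : Monoid.PushoutI (flip 1).phi ≃* FundamentalGroup M p :=
    (MulEquiv.inv' _).trans e.symm
  let _ : MulAction (Monoid.PushoutI (flip 1).phi) X := MulAction.compHom X ψ.toMonoidHom
  refine no_action hX (fun g x y => hiso (ψ g) x y) ⟨δ, hδ, ?_⟩
  intro g hg x
  refine hdisp (ψ g) ?_ x
  intro h1
  exact hg (ψ.injective (h1.trans (map_one ψ).symm))

/-- J4 -/
theorem not_admits [CompactSpace (flip 1).toGluing.Space]
    (hpi : PathConnectedSpace (flip 1).toGluing.Space ∧ ∀ p : (flip 1).toGluing.Space,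
      Nonempty (FundamentalGroup (flip 1).toGluing.Space p ≃*
        (Monoid.PushoutI (flip 1).phi)ᵐᵒᵖ)) :
    ¬ AdmitsLocallyCAT0 (flip 1).toGluing.Space := by
  have _ := hpi.1
  obtain ⟨p⟩ := (inferInstance : Nonempty (flip 1).toGluing.Space)
  exact not_admits_aux p (hpi.2 p)

/-- J5: the final theorem, from the topology statements and the metric on `flip 0`. -/
theorem final (hcompact : ∀ D : Gluing, CompactSpace D.Space)
    (hpi : ∀ e : LatIso, PathConnectedSpace e.toGluing.Space ∧ ∀ p : e.toGluing.Space,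
      Nonempty (FundamentalGroup e.toGluing.Space p ≃* (Monoid.PushoutI e.phi)ᵐᵒᵖ))
    (h : AdmitsLocallyCAT0 (flip 0).toGluing.Space) :
    ∃ G₁ G₂ : Gluing, G₁.Irreducible ∧ G₂.Irreducible ∧
      (∀ (p : G₁.Space) (q : G₂.Space),
        QuasiIsometric (FundamentalGroup G₁.Space p) (FundamentalGroup G₂.Space q)) ∧
      Nonempty G₁.Space ∧ Nonempty G₂.Space ∧
      AdmitsLocallyCAT0 G₁.Space ∧ ¬ AdmitsLocallyCAT0 G₂.Space := by
  have _ := hcompact (flip 1).toGluing
  have h0 := (hpi (flip 0)).1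
  have h1 := (hpi (flip 1)).1
  exact ⟨(flip 0).toGluing, (flip 1).toGluing, irreducible_flip 0, irreducible_flip 1,
    fun p q => transfer quasiIsometric_flip ((hpi (flip 0)).2 p) ((hpi (flip 1)).2 q),
    h0.nonempty, h1.nonempty, h, not_admits (hpi (flip 1))⟩

end Pool.Agent.Work.MP_f0c219_gt.Assembly
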