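import Mathlib
import Pool.Agent.Work.MP_f0c219_gt.Cat0

/-!
# Local geometry of compact locally CAT(0) spaces

A uniform scale `r` at which geodesics exist, the CAT(0) inequality holds and paths in balls are
determined up to homotopy by their endpoints.
-/

open Set Topology

namespace Pool.Agent.Work.MP_f0c219_gt.Hadamard

section cat0

variable {X : Type*} [MetricSpace X]

/-- Geodesics to a common endpoint approach each other. -/
theorem dist_geod_le (h : IsCAT0 X) {x y o : X} {γ γ' : ℝ → X} (hγ : IsGeodesic γ x o)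
    (hγ' : IsGeodesic γ' y o) {t : ℝ} (ht : t ∈ Icc (0 : ℝ) 1) :
    dist (γ t) (γ' t) ≤ (1 - t) * dist x y := by
  have h1 := h.inequality hγ (γ' t) ht
  have h2 := h.inequality hγ' x ht
  have h3 : dist (γ' t) o = (1 - t) * dist y o := by
    obtain ⟨g0, g1, hd⟩ := hγ'
    have := hd t ht 1 ⟨zero_le_one, le_rfl⟩
    rw [g1, abs_sub_comm, abs_of_nonneg (by linarith [ht.2])] at this
    exact this
  have h4 : dist (γ' t) x = dist x (γ' t) := dist_comm _ _
  rw [h3, h4] at h1
  have h5 : (1 - t) * dist x (γ' t) ^ 2 ≤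
      (1 - t) * ((1 - t) * dist x y ^ 2 + t * dist x o ^ 2 - t * (1 - t) * dist y o ^ 2) :=
    mul_le_mul_of_nonneg_left h2 (by linarith [ht.2])
  have h6 : dist (γ' t) (γ t) ^ 2 ≤ ((1 - t) * dist x y) ^ 2 := by nlinarith
  rw [dist_comm]
  exact abs_le_of_sq_le_sq' h6 (mul_nonneg (by linarith [ht.2]) dist_nonneg) |>.2

/-- CAT(0) spaces are contractible. -/
theorem contractibleSpace_of_isCAT0 [Nonempty X] (h : IsCAT0 X) : ContractibleSpace X := by
  obtain ⟨o⟩ := ‹Nonempty X›
  choose γ hγ using fun x : X => h.1 x o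
  rw [contractible_iff_id_nullhomotopic]
  refine ⟨o, ⟨⟨⟨fun q => γ q.2 (q.1 : ℝ), ?_⟩, ?_, ?_⟩⟩⟩
  · rw [continuous_iff_continuousAt]
    rintro ⟨t, y⟩
    unfold ContinuousAt
    rw [tendsto_iff_dist_tendsto_zero]
    have hb : ∀ q : unitInterval × X, dist (γ q.2 (q.1 : ℝ)) (γ y (t : ℝ)) ≤
        dist q.2 y + |(q.1 : ℝ) - t| * dist y o := by
      intro q
      have a1 := dist_geod_le h (hγ q.2) (hγ y) q.1.2
      have a2 := (hγ y).2.2 q.1 q.1.2 t t.2
      have a3 : (1 - (q.1 : ℝ)) * dist q.2 y ≤ dist q.2 y := by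
        have := @dist_nonneg _ _ q.2 y
        have := q.1.2.1
        nlinarith
      calc dist (γ q.2 (q.1 : ℝ)) (γ y (t : ℝ))
          ≤ dist (γ q.2 (q.1 : ℝ)) (γ y (q.1 : ℝ)) + dist (γ y (q.1 : ℝ)) (γ y (t : ℝ)) :=
            dist_triangle _ _ _
        _ ≤ _ := by rw [a2]; linarith
    refine squeeze_zero (fun _ => dist_nonneg) hb ?_
    have hc : Continuous (fun q : unitInterval × X => dist q.2 y + |(q.1 : ℝ) - t| * dist y o) := by
      fun_prop
    have := hc.tendsto (t, y)
    simpa using this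
  · intro x
    exact (hγ x).1
  · intro x
    exact (hγ x).2.1

end cat0

/-- The facts at scale `r` used for the Cartan-Hadamard theorem. -/
structure LocData (M : Type*) [MetricSpace M] (r : ℝ) : Prop where
  pos : 0 < r
  geo : ∀ x y : M, dist x y < r → ∃ γ : ℝ → M, IsGeodesic γ x y
  cat : ∀ (x y p : M) (γ : ℝ → M), IsGeodesic γ x y → dist x y < r → dist p x < r →
    ∀ t ∈ Icc (0 : ℝ) 1,
      dist p (γ t) ^ 2 ≤ (1 - t) * dist p x ^ 2 + t * dist p y ^ 2 - t * (1 - t) * dist x y ^ 2
  sc : ∀ (x a b : M) (f g : Path a b), (∀ t, dist (f t) x < r) → (∀ t, dist (g t) x < r) →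
    f.Homotopic g

theorem exists_locData {M : Type*} [MetricSpace M] [CompactSpace M] (hM : LocallyCAT0 M) :
    ∃ r : ℝ, LocData M r := by
  choose U hU hc using hM
  obtain ⟨r, hr, hball⟩ := lebesgue_number_lemma_of_metric (isCompact_univ (X := M))
    (c := fun x => interior (U x)) (fun x => isOpen_interior)
    (fun x _ => mem_iUnion.2 ⟨x, mem_interior_iff_mem_nhds.2 (hU x)⟩)
  have hball' : ∀ x : M, ∃ i, Metric.ball x r ⊆ U i := fun x => by
    obtain ⟨i, hi⟩ := hball x (mem_univ x)
    exact ⟨i, hi.trans interior_subset⟩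
  refine ⟨r, hr, ?_, ?_, ?_⟩
  · intro x y hxy
    obtain ⟨i, hi⟩ := hball' x
    have hx : x ∈ U i := hi (Metric.mem_ball_self hr)
    have hy : y ∈ U i := hi (by rw [Metric.mem_ball, dist_comm]; exact hxy)
    obtain ⟨γ, h0, h1, hd⟩ := (hc i).1 ⟨x, hx⟩ ⟨y, hy⟩
    exact ⟨fun t => (γ t : M), congrArg Subtype.val h0, congrArg Subtype.val h1,
      fun s hs t ht => hd s hs t ht⟩
  · intro x y p γ hγ hxy hpx t ht
    obtain ⟨i, hi⟩ := hball' x
    have hx : x ∈ U i := hi (Metric.mem_ball_self hr)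
    have hy : y ∈ U i := hi (by rw [Metric.mem_ball, dist_comm]; exact hxy)
    have hp : p ∈ U i := hi (by rw [Metric.mem_ball]; exact hpx)
    have hm : ∀ s ∈ Icc (0 : ℝ) 1, γ s ∈ U i := by
      intro s hs
      apply hi
      rw [Metric.mem_ball]
      have := hγ.2.2 s hs 0 ⟨le_rfl, zero_le_one⟩
      rw [hγ.1, sub_zero, abs_of_nonneg hs.1] at this
      rw [this]
      calc s * dist x y ≤ 1 * dist x y := by
            have := @dist_nonneg _ _ x y
            nlinarith [hs.2]
        _ < r := by rw [one_mul]; exact hxy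
    classical
    have hγ' : IsGeodesic (fun s => if h : γ s ∈ U i then (⟨γ s, h⟩ : U i) else ⟨x, hx⟩)
        (⟨x, hx⟩ : U i) ⟨y, hy⟩ := by
      obtain ⟨h0, h1, hd⟩ := hγ
      refine ⟨?_, ?_, ?_⟩
      · simp only [h0, hx, dite_true]
      · simp only [h1, hy, dite_true]
      · intro s hs s' hs'
        simp only [hm s hs, hm s' hs', dite_true]
        exact hd s hs s' hs'
    have := (hc i).2 _ _ ⟨p, hp⟩ _ hγ' t ht
    simp only [hm t ht, dite_true] at this
    exact this
  · intro x a b f g hf hg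
    obtain ⟨i, hi⟩ := hball' x
    have hf' : ∀ t, f t ∈ U i := fun t => hi (hf t)
    have hg' : ∀ t, g t ∈ U i := fun t => hi (hg t)
    have ha : a ∈ U i := by have := hf' 0; rwa [f.source] at this
    have hb : b ∈ U i := by have := hf' 1; rwa [f.target] at this
    let f' : Path (⟨a, ha⟩ : U i) ⟨b, hb⟩ :=
      { toFun := fun t => ⟨f t, hf' t⟩
        continuous_toFun := f.continuous.subtype_mk _
        source' := by simp
        target' := by simp }
    let g' : Path (⟨a, ha⟩ : U i) ⟨b, hb⟩ :=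
      { toFun := fun t => ⟨g t, hg' t⟩
        continuous_toFun := g.continuous.subtype_mk _
        source' := by simp
        target' := by simp }
    haveI : Nonempty (U i) := ⟨⟨a, ha⟩⟩
    haveI := contractibleSpace_of_isCAT0 (hc i)
    have h1 : f'.Homotopic g' := SimplyConnectedSpace.paths_homotopic f' g'
    have h2 := h1.map (⟨Subtype.val, continuous_subtype_val⟩ : C(U i, M))
    exact h2

end Pool.Agent.Work.MP_f0c219_gt.Hadamard
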