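import Pool.Agent.Work.MP_f0c219_gt_h67.Cover

/-!
# The chain metric on the space of classes is proper and geodesic
-/

open Set Topology

namespace Pool.Agent.Work.MP_f0c219_gt.Hadamard

section general

variable {X : Type*} [MetricSpace X]

theorem isGeodesic_of_le {γ : ℝ → X} {x y : X} (h0 : γ 0 = x) (h1 : γ 1 = y)
    (hle : ∀ s t : ℝ, 0 ≤ s → s ≤ t → t ≤ 1 → dist (γ s) (γ t) ≤ (t - s) * dist x y) :
    IsGeodesic γ x y := by
  refine ⟨h0, h1, ?_⟩
  have key : ∀ s t : ℝ, 0 ≤ s → s ≤ t → t ≤ 1 → dist (γ s) (γ t) = (t - s) * dist x y := by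
    intro s t hs hst ht
    refine le_antisymm (hle s t hs hst ht) ?_
    have a1 := hle 0 s le_rfl hs (hst.trans ht)
    have a2 := hle t 1 (hs.trans hst) ht le_rfl
    rw [h0] at a1
    rw [h1] at a2
    have a3 : dist x y ≤ dist x (γ s) + dist (γ s) (γ t) + dist (γ t) y := dist_triangle4 _ _ _ _
    nlinarith
  intro s hs t ht
  rcases le_total s t with hst | hst
  · rw [key s t hs.1 hst ht.2, abs_sub_comm, abs_of_nonneg (by linarith)]
  · rw [dist_comm, key t s ht.1 hst hs.2, abs_of_nonneg (by linarith)]

theorem isGeodesic_dist {γ : ℝ → X} {x y : X} (h : IsGeodesic γ x y) {s t : ℝ} (hs : 0 ≤ s)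
    (hst : s ≤ t) (ht : t ≤ 1) : dist (γ s) (γ t) = (t - s) * dist x y := by
  rw [h.2.2 s ⟨hs, hst.trans ht⟩ t ⟨hs.trans hst, ht⟩, abs_sub_comm, abs_of_nonneg (by linarith)]

theorem isGeodesic_left {γ : ℝ → X} {x y : X} (h : IsGeodesic γ x y) {t : ℝ} (ht : t ∈ Icc (0 : ℝ) 1) :
    dist x (γ t) = t * dist x y := by
  have := isGeodesic_dist h le_rfl ht.1 ht.2
  rwa [h.1, sub_zero] at this

theorem isGeodesic_right {γ : ℝ → X} {x y : X} (h : IsGeodesic γ x y) {t : ℝ}
    (ht : t ∈ Icc (0 : ℝ) 1) : dist (γ t) y = (1 - t) * dist x y := by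
  have := isGeodesic_dist h ht.1 ht.2 le_rfl
  rwa [h.2.1] at this

/-- concatenation of geodesics -/
theorem exists_concat {γ₁ γ₂ : ℝ → X} {x w y : X} (h₁ : IsGeodesic γ₁ x w) (h₂ : IsGeodesic γ₂ w y)
    (hd : dist x y = dist x w + dist w y) {t : ℝ} (ht : t ∈ Icc (0 : ℝ) 1)
    (hw : dist x w = t * dist x y) (hw' : dist w y = (1 - t) * dist x y) :
    ∃ γ : ℝ → X, IsGeodesic γ x y ∧ γ t = w := by
  classical
  refine ⟨fun s => if s ≤ t then γ₁ (s / t) else γ₂ ((s - t) / (1 - t)), ?_, ?_⟩
  · have hx : γ₁ 0 = x := h₁.1
    refine isGeodesic_of_le ?_ ?_ ?_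
    · simp [ht.1, hx]
    · rcases ht.2.eq_or_lt with h | h
      · have : dist w y = 0 := by rw [hw', h]; ring
        simp only [h, le_refl, if_true, div_one]
        rw [h₁.2.1]
        exact dist_eq_zero.1 this
      · simp only [not_le.2 h, if_false]
        rw [div_self (by linarith)]
        exact h₂.2.1
    · intro s s' hs hss hs'
      have hL := @dist_nonneg _ _ x y
      by_cases h1 : s' ≤ t
      · have h0 : s ≤ t := hss.trans h1
        simp only [h0, h1, if_true]
        rcases ht.1.eq_or_lt with h | h
        · have e1 : s = 0 := by linarith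
          have e2 : s' = 0 := by linarith
          simp [e1, e2]
        · rw [isGeodesic_dist h₁ (by positivity) (by gcongr) (by rw [div_le_one h]; exact h1), hw]
          apply le_of_eq
          field_simp
      · push Not at h1
        by_cases h0 : s ≤ t
        · simp only [h0, if_true, not_le.2 h1, if_false]
          have h1t : 0 < 1 - t := by linarith
          have a1 : dist (γ₁ (s / t)) w = (t - s) * dist x y := by
            rcases ht.1.eq_or_lt with h | h
            · have e1 : s = 0 := by linarith
              have e2 : dist x w = 0 := by rw [hw, ← h]; ring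
              rw [e1, zero_div, hx, e2, ← h]
              ring
            · rw [isGeodesic_right h₁ ⟨by positivity, by rw [div_le_one h]; exact h0⟩, hw]
              field_simp
          have a2 : dist w (γ₂ ((s' - t) / (1 - t))) = (s' - t) * dist x y := by
            rw [isGeodesic_left h₂ ⟨div_nonneg (by linarith) h1t.le,
              by rw [div_le_one h1t]; linarith⟩, hw']
            field_simp
          calc dist (γ₁ (s / t)) (γ₂ ((s' - t) / (1 - t)))
              ≤ dist (γ₁ (s / t)) w + dist w (γ₂ ((s' - t) / (1 - t))) := dist_triangle _ _ _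
            _ = _ := by rw [a1, a2]; ring
        · push Not at h0
          simp only [not_le.2 h0, not_le.2 h1, if_false]
          have h1t : 0 < 1 - t := by linarith
          rw [isGeodesic_dist h₂ (div_nonneg (by linarith) h1t.le) (by gcongr)
            (by rw [div_le_one h1t]; linarith), hw']
          apply le_of_eq
          field_simp
          ring
  · simp only [le_refl, if_true]
    rcases ht.1.eq_or_lt with h | h
    · have e2 : dist x w = 0 := by rw [hw, ← h]; ring
      rw [← h, div_zero, h₁.1]
      exact dist_eq_zero.1 e2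
    · rw [div_self h.ne']
      exact h₁.2.1

end general

variable {M : Type*} [MetricSpace M] {r : ℝ} {h : LocData M r} {p : M}

namespace UC

/-- The class of the projection of a path. -/
theorem cls_one (c : C(unitInterval, UC h p)) :
    (c 1).cls = (c 0).cls.trans (Path.Homotopic.Quotient.mk
      (⟨⟨fun t => (c t).pt, continuous_pt.comp c.continuous⟩, rfl, rfl⟩ :
        Path (c 0).pt (c 1).pt)) := by
  let f : C(unitInterval, M) := ⟨fun t => (c t).pt, continuous_pt.comp c.continuous⟩
  have hr := h.pos
  obtain ⟨N₁, hN₁, h₁⟩ := unif c.continuous (show 0 < r / 4 by linarith)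
  obtain ⟨N₂, hN₂, h₂⟩ := unif f.continuous (show 0 < r / 4 by linarith)
  set N := max N₁ N₂ with hN
  have key : ∀ i ≤ N, c (tt N i) = liftPath f (c 0).cls (tt N i) := by
    intro i
    induction i with
    | zero =>
      intro _
      rw [tt_zero, liftPath_zero]
      rfl
    | succ i ih =>
      intro hi
      have e := ih (by omega)
      have hn1 : Near (c (tt N i)) (c (tt N (i + 1))) := by
        apply near_of_dist
        apply h₁ N (le_max_left _ _)
        rw [abs_sub_comm]
        exact (tt_sub (by omega)).le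
      have hn2 := near_liftPath_grid (h := h) f (c 0).cls (h₂ N (le_max_right _ _)) (i := i) (by omega)
      rw [← e] at hn2
      exact near_unique hn1 hn2 rfl
  have h3 := key N le_rfl
  rw [tt_self (by omega), liftPath_one] at h3
  have h4 := (UC.ext_iff.1 h3).2
  exact eq_of_heq h4

/-- The projected path of a path in the space of classes. -/
noncomputable def proj {a b : UC h p} (c : C(unitInterval, UC h p)) (h0 : c 0 = a) (h1 : c 1 = b) :
    Path a.pt b.pt :=
  ⟨⟨fun t => (c t).pt, continuous_pt.comp c.continuous⟩, by simp [h0], by simp [h1]⟩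

theorem cls_eq {a b : UC h p} (c : C(unitInterval, UC h p)) (h0 : c 0 = a) (h1 : c 1 = b) :
    b.cls = a.cls.trans (Path.Homotopic.Quotient.mk (proj c h0 h1)) := by
  subst h0 h1
  exact cls_one c

theorem exists_geod_short {a b : UC h p} (hab : dist a b < r / 8) :
    ∃ γ : ℝ → UC h p, IsGeodesic γ a b := by
  have hr := h.pos
  have hn : Near a b := near_of_dist (by linarith)
  have hd := hn.dist_eq
  obtain ⟨γ, hγ⟩ := h.geo a.pt b.pt (by linarith)
  have hex : ∀ t : ℝ, t ∈ Icc (0 : ℝ) 1 → ∃ c : UC h p, c.pt = γ t ∧ Near a c := by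
    intro t ht
    apply exists_near
    rw [isGeodesic_left hγ ht]
    have := @dist_nonneg _ _ a.pt b.pt
    nlinarith [ht.2]
  haveI : Nonempty (UC h p) := ⟨a⟩
  choose! L hL using hex
  refine ⟨L, ?_, ?_, ?_⟩
  · have := hL 0 ⟨le_rfl, zero_le_one⟩
    exact near_unique this.2 (near_refl a) (by rw [this.1, hγ.1])
  · have := hL 1 ⟨zero_le_one, le_rfl⟩
    exact near_unique this.2 hn (by rw [this.1, hγ.2.1])
  · intro s hs t ht
    have h1 := hL s hs
    have h2 := hL t ht
    have h3 : dist (L s).pt (L t).pt = |s - t| * dist a.pt b.pt := by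
      rw [h1.1, h2.1]
      exact hγ.2.2 s hs t ht
    have h4 : |s - t| ≤ 1 := by
      rw [abs_le]
      constructor <;> linarith [hs.1, hs.2, ht.1, ht.2]
    have h5 : Near (L s) (L t) := by
      refine h1.2.symm.trans h2.2 ?_
      rw [h3]
      have := @dist_nonneg _ _ a.pt b.pt
      nlinarith [abs_nonneg (s - t)]
    rw [h5.dist_eq, h3, hd]

theorem Len.split {a b : UC h p} {l : ℝ} (hl : Len a b l) : ∀ s : ℝ, 0 ≤ s → s ≤ l →
    ∃ w, dist a w ≤ s ∧ dist w b ≤ l - s := by
  induction hl with
  | refl =>
    intro s hs hsl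
    exact ⟨a, by simpa using hs, by simpa using hsl⟩
  | @step b c l hab hbc ih =>
    intro s hs hsl
    rcases le_or_gt s l with h1 | h1
    · obtain ⟨w, hw, hw'⟩ := ih s hs h1
      refine ⟨w, hw, ?_⟩
      have h2 := hbc.dist_eq
      have := dist_triangle w b c
      linarith
    · have hr := h.pos
      have hd4 := hbc.dist_lt
      set d := dist b.pt c.pt with hd
      have hdpos : 0 < d := by linarith
      obtain ⟨γ, hγ⟩ := h.geo b.pt c.pt (by linarith)
      have ht : (s - l) / d ∈ Icc (0 : ℝ) 1 :=
        ⟨div_nonneg (by linarith) hdpos.le, by rw [div_le_one hdpos]; linarith⟩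
      have e1 := isGeodesic_left hγ ht
      have e2 := isGeodesic_right hγ ht
      rw [← hd] at e1 e2
      have e1' : dist b.pt (γ ((s - l) / d)) = s - l := by rw [e1]; field_simp
      have e2' : dist (γ ((s - l) / d)) c.pt = d - (s - l) := by rw [e2]; field_simp
      obtain ⟨w, hw, hbw⟩ := exists_near b (y := γ ((s - l) / d)) (by rw [e1']; linarith)
      have hwc : Near w c := hbw.symm.trans hbc (by rw [hw, e2']; linarith)
      refine ⟨w, ?_, ?_⟩
      · have h2 := dist_triangle a b w
        have h3 : dist a b ≤ l := dist_le_of_len hab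
        rw [hbw.dist_eq, hw, e1'] at h2
        linarith
      · rw [hwc.dist_eq, hw, e2']
        linarith

theorem isCompact_small [CompactSpace M] (b : UC h p) {ρ : ℝ} (hρ : ρ < r / 8) :
    IsCompact (Metric.closedBall b ρ) := by
  have hr := h.pos
  have hex : ∀ y : M, y ∈ Metric.closedBall b.pt ρ → ∃ c : UC h p, c.pt = y ∧ Near b c := by
    intro y hy
    apply exists_near
    rw [dist_comm]
    rw [Metric.mem_closedBall] at hy
    linarith
  haveI : Nonempty (UC h p) := ⟨b⟩
  choose! σ hσ using hex
  have hcont : ContinuousOn σ (Metric.closedBall b.pt ρ) := by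
    have : LipschitzOnWith 1 σ (Metric.closedBall b.pt ρ) := by
      apply LipschitzOnWith.of_dist_le_mul
      intro y hy z hz
      have h1 := hσ y hy
      have h2 := hσ z hz
      rw [Metric.mem_closedBall] at hy hz
      have h3 : dist y z < r / 4 := by
        have := dist_triangle_right y z b.pt
        linarith
      have h4 : Near (σ y) (σ z) := h1.2.symm.trans h2.2 (by rw [h1.1, h2.1]; exact h3)
      rw [h4.dist_eq, h1.1, h2.1]
      simp
    exact this.continuousOn
  have hc := (Metric.isClosed_closedBall (x := b.pt) (ε := ρ)).isCompact.image_of_continuousOn hcont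
  refine hc.of_isClosed_subset Metric.isClosed_closedBall ?_
  intro c hc
  rw [Metric.mem_closedBall] at hc
  have h1 : c.pt ∈ Metric.closedBall b.pt ρ := by
    rw [Metric.mem_closedBall]
    exact (pt_dist_le c b).trans hc
  refine ⟨c.pt, h1, ?_⟩
  have h2 := hσ c.pt h1
  exact near_unique h2.2 (near_of_dist (by rw [dist_comm]; linarith)) h2.1

instance properSpace [CompactSpace M] : ProperSpace (UC h p) := by
  have hr := h.pos
  have key : ∀ (a : UC h p) (n : ℕ), IsCompact (Metric.closedBall a (n * (r / 32))) := by
    intro a n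
    induction n with
    | zero => exact isCompact_small a (by norm_num; linarith)
    | succ n ih =>
      obtain ⟨t, -, htf, htc⟩ := ih.finite_cover_balls (show 0 < r / 32 by linarith)
      have hc : IsCompact (⋃ b ∈ t, Metric.closedBall b (3 * (r / 32))) :=
        htf.isCompact_biUnion fun b _ => isCompact_small b (by linarith)
      refine hc.of_isClosed_subset Metric.isClosed_closedBall ?_
      intro c hc
      rw [Metric.mem_closedBall, dist_comm] at hc
      push_cast at hc
      obtain ⟨l, hl, hl'⟩ := exists_len_lt (show dist a c < (n + 2) * (r / 32) by linarith)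
      obtain ⟨w, hw, hw'⟩ := hl.split (min (n * (r / 32)) l)
        (le_min (by positivity) hl.nonneg) (min_le_right _ _)
      have hwK : w ∈ Metric.closedBall a (n * (r / 32)) := by
        rw [Metric.mem_closedBall, dist_comm]
        exact hw.trans (min_le_left _ _)
      have hw2 : dist w c ≤ 2 * (r / 32) := by
        rcases le_total ((n : ℝ) * (r / 32)) l with h1 | h1
        · rw [min_eq_left h1] at hw'
          linarith
        · rw [min_eq_right h1] at hw'
          linarith
      obtain ⟨b, hb, hwb⟩ := mem_iUnion₂.1 (htc hwK)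
      rw [Metric.mem_ball] at hwb
      refine mem_iUnion₂.2 ⟨b, hb, ?_⟩
      rw [Metric.mem_closedBall]
      have := dist_triangle c w b
      rw [dist_comm c w] at this
      linarith
  refine ⟨fun a R => ?_⟩
  obtain ⟨n, hn⟩ := exists_nat_gt (R / (r / 32))
  refine (key a n).of_isClosed_subset Metric.isClosed_closedBall (Metric.closedBall_subset_closedBall ?_)
  rw [div_lt_iff₀ (by linarith)] at hn
  exact hn.le

theorem exists_between [CompactSpace M] (a b : UC h p) {s : ℝ} (hs : 0 ≤ s) (hs' : s ≤ dist a b) :
    ∃ w, dist a w = s ∧ dist w b = dist a b - s := by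
  have hK := isCompact_closedBall a (s + 1)
  have hne : (Metric.closedBall a (s + 1)).Nonempty := ⟨a, Metric.mem_closedBall_self (by linarith)⟩
  have hg : Continuous fun w : UC h p => max (dist a w - s) (dist w b - (dist a b - s)) := by
    fun_prop
  obtain ⟨w, -, hw⟩ := hK.exists_isMinOn hne hg.continuousOn
  have h0 : max (dist a w - s) (dist w b - (dist a b - s)) ≤ 0 := by
    refine le_of_forall_pos_le_add fun δ hδ => ?_
    obtain ⟨l, hl, hl'⟩ := exists_len_lt (lt_add_of_pos_right (dist a b) hδ)
    have hl2 : dist a b ≤ l := dist_le_of_len hl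
    obtain ⟨v, hv, hv'⟩ := hl.split s hs (hs'.trans hl2)
    have hvK : v ∈ Metric.closedBall a (s + 1) := by
      rw [Metric.mem_closedBall, dist_comm]
      linarith
    have h1 := isMinOn_iff.1 hw v hvK
    have h1' := h1
    refine h1.trans (max_le ?_ ?_) <;> linarith
  have h1 := (max_le_iff.1 h0).1
  have h2 := (max_le_iff.1 h0).2
  have h3 := dist_triangle a w b
  exact ⟨w, by linarith, by linarith⟩

theorem exists_geod [CompactSpace M] (a b : UC h p) : ∃ γ : ℝ → UC h p, IsGeodesic γ a b := by
  have hr := h.pos
  have key : ∀ (n : ℕ) (a b : UC h p), dist a b < n * (r / 16) →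
      ∃ γ : ℝ → UC h p, IsGeodesic γ a b := by
    intro n
    induction n with
    | zero =>
      intro a b hab
      have := @dist_nonneg _ _ a b
      simp at hab
      linarith
    | succ n ih =>
      intro a b hab
      rcases lt_or_ge (dist a b) (r / 8) with h1 | h1
      · exact exists_geod_short h1
      · obtain ⟨w, hw, hw'⟩ := exists_between a b (s := dist a b - r / 16) (by linarith) (by linarith)
        push_cast at hab
        obtain ⟨γ₁, hγ₁⟩ := ih a w (by rw [hw]; linarith)
        obtain ⟨γ₂, hγ₂⟩ := exists_geod_short (a := w) (b := b) (by rw [hw']; linarith)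
        have hD : 0 < dist a b := by linarith
        obtain ⟨γ, hγ, -⟩ := exists_concat hγ₁ hγ₂ (by rw [hw, hw']; ring)
          (t := (dist a b - r / 16) / dist a b)
          ⟨div_nonneg (by linarith) hD.le, by rw [div_le_one hD]; linarith⟩
          (by rw [hw]; field_simp) (by rw [hw']; field_simp)
        exact ⟨γ, hγ⟩
  obtain ⟨n, hn⟩ := exists_nat_gt (dist a b / (r / 16))
  rw [div_lt_iff₀ (by linarith)] at hn
  exact key n a b hn

end UC

end Pool.Agent.Work.MP_f0c219_gt.Hadamard
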