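import Pool.Agent.Work.MP_f0c219_gt_h67.Proper

/-!
# Uniqueness of geodesics in the space of classes

Two geodesics with the same endpoints project to homotopic paths. A grid of points interpolating
between them of least energy has all rows harmonic, and close harmonic chains with the same
endpoints are equal.
-/

open Set Topology
open Path.Homotopic.Quotient (trans_assoc)

namespace Pool.Agent.Work.MP_f0c219_gt.Hadamard

variable {M : Type*} [MetricSpace M] {r : ℝ} {h : LocData M r} {p : M}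

/-- `m` is a midpoint of `x` and `y` -/
def IsMid (x y m : M) : Prop := dist x m = dist x y / 2 ∧ dist m y = dist x y / 2

namespace LocData

theorem quad (h : LocData M r) {x1 x2 x3 x4 : M} (h13 : dist x1 x3 < r) (h12 : dist x2 x1 < r)
    (h14 : dist x4 x1 < r) : dist x1 x3 ^ 2 + dist x2 x4 ^ 2 ≤
      dist x2 x3 ^ 2 + dist x1 x4 ^ 2 + 2 * dist x1 x2 * dist x3 x4 := by
  obtain ⟨γ, hγ⟩ := h.geo x1 x3 h13
  rcases eq_or_ne x1 x2 with he | h12'
  · subst he; simp
  rcases eq_or_ne x3 x4 with he | h34'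
  · subst he; simp [add_comm]
  have ha : 0 < dist x1 x2 := dist_pos.2 h12'
  have hb : 0 < dist x3 x4 := dist_pos.2 h34'
  set a := dist x1 x2 with hadef
  set b := dist x3 x4 with hbdef
  have hab : 0 < a + b := by positivity
  set t := a / (a + b) with htdef
  have ht0 : 0 < t := by positivity
  have h1t : 1 - t = b / (a + b) := by rw [htdef]; field_simp; ring
  have h1t0 : 0 < 1 - t := by rw [h1t]; positivity
  have htI : t ∈ Icc (0 : ℝ) 1 := ⟨ht0.le, by linarith⟩
  have e1 := h.cat x1 x3 x2 γ hγ h13 h12 t htI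
  have e2 := h.cat x1 x3 x4 γ hγ h13 h14 t htI
  rw [dist_comm x2 x1, ← hadef] at e1
  rw [dist_comm x4 x1, dist_comm x4 x3, ← hbdef] at e2
  have e3 : dist x2 x4 ≤ dist x2 (γ t) + dist x4 (γ t) := dist_triangle_right _ _ _
  have e4 : dist x2 x4 ^ 2 ≤ (dist x2 (γ t) + dist x4 (γ t)) ^ 2 := by
    have := @dist_nonneg _ _ x2 x4
    gcongr
  have e5 : t * (1 - t) * (dist x2 (γ t) + dist x4 (γ t)) ^ 2 ≤
      (1 - t) * dist x2 (γ t) ^ 2 + t * dist x4 (γ t) ^ 2 := by
    nlinarith [sq_nonneg ((1 - t) * dist x2 (γ t) - t * dist x4 (γ t))]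
  have e6 : (1 - t) * a = a * b / (a + b) := by rw [h1t]; ring
  have e7 : t * b = a * b / (a + b) := by rw [htdef]; ring
  have e8 : ((1 - t) * a) ^ 2 + (t * b) ^ 2 = 2 * a * b * (t * (1 - t)) := by
    rw [e6, e7, h1t, htdef]; field_simp; ring
  have hpos : 0 < t * (1 - t) := by positivity
  have e9 : t * (1 - t) * dist x2 x4 ^ 2 ≤
      t * (1 - t) * (dist x2 x3 ^ 2 + dist x1 x4 ^ 2 + 2 * a * b - dist x1 x3 ^ 2) := by
    have f1 : t * (1 - t) * dist x2 x4 ^ 2 ≤ t * (1 - t) * (dist x2 (γ t) + dist x4 (γ t)) ^ 2 := by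
      gcongr
    have f2 : (1 - t) * dist x2 (γ t) ^ 2 ≤
        (1 - t) * ((1 - t) * a ^ 2 + t * dist x2 x3 ^ 2 - t * (1 - t) * dist x1 x3 ^ 2) := by gcongr
    have f3 : t * dist x4 (γ t) ^ 2 ≤
        t * ((1 - t) * dist x1 x4 ^ 2 + t * b ^ 2 - t * (1 - t) * dist x1 x3 ^ 2) := by gcongr
    nlinarith
  have := le_of_mul_le_mul_left e9 hpos
  linarith

theorem exists_mid (h : LocData M r) {x y : M} (hxy : dist x y < r) : ∃ m, IsMid x y m := by
  obtain ⟨γ, hγ⟩ := h.geo x y hxy
  refine ⟨γ (1 / 2), ?_, ?_⟩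
  · rw [isGeodesic_left hγ ⟨by norm_num, by norm_num⟩]; ring
  · rw [isGeodesic_right hγ ⟨by norm_num, by norm_num⟩]; ring

theorem cn (h : LocData M r) {x y m q : M} (hm : IsMid x y m) (hxy : dist x y < r)
    (hq : dist q x < r) :
    dist q m ^ 2 ≤ (dist q x ^ 2 + dist q y ^ 2) / 2 - dist x y ^ 2 / 4 := by
  obtain ⟨γ, hγ⟩ := h.geo x y hxy
  have hd := @dist_nonneg _ _ x y
  have hI : (1 / 2 : ℝ) ∈ Icc (0 : ℝ) 1 := ⟨by norm_num, by norm_num⟩
  have e1 := h.cat x y m γ hγ hxy (by rw [dist_comm, hm.1]; linarith) (1 / 2) hI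
  rw [dist_comm m x, hm.1, hm.2] at e1
  have e2 : dist m (γ (1 / 2)) = 0 := by
    have := @dist_nonneg _ _ m (γ (1 / 2))
    nlinarith
  have e3 : m = γ (1 / 2) := dist_eq_zero.1 e2
  have e4 := h.cat x y q γ hγ hxy hq (1 / 2) hI
  rw [← e3] at e4
  linarith

theorem mid_unique (h : LocData M r) {x y m m' : M} (hm : IsMid x y m) (hm' : IsMid x y m')
    (hxy : dist x y < r) : m = m' := by
  have hd := @dist_nonneg _ _ x y
  have := h.cn hm hxy (q := m') (by rw [dist_comm, hm'.1]; linarith)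
  rw [dist_comm m' x, hm'.1, hm'.2] at this
  have e2 : dist m' m = 0 := by
    have := @dist_nonneg _ _ m' m
    nlinarith
  exact (dist_eq_zero.1 e2).symm

theorem mid_quad (h : LocData M r) {a b a' b' m m' : M} (hm : IsMid a b m) (hm' : IsMid a' b' m')
    (h1 : dist a b < r) (h2 : dist a' b' < r) (h3 : dist a a' < r / 2) (h4 : dist a b' < r) :
    dist m m' ^ 2 ≤ (dist a a' ^ 2 + dist b b' ^ 2) / 2 - (dist a b - dist a' b') ^ 2 / 4 := by
  have hr := h.pos
  have e1 := h.cn hm' h2 (q := m) (by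
    have := dist_triangle m a a'
    rw [dist_comm m a, hm.1] at this
    linarith)
  have e2 := h.cn hm h1 (q := a') (by rw [dist_comm]; linarith)
  have e3 := h.cn hm h1 (q := b') (by rw [dist_comm]; exact h4)
  have e4 := h.quad (x1 := a) (x2 := b) (x3 := b') (x4 := a') h4 (by rw [dist_comm]; exact h1)
    (by rw [dist_comm]; linarith)
  rw [dist_comm a' m, dist_comm a' a, dist_comm a' b] at e2
  rw [dist_comm b' m, dist_comm b' a, dist_comm b' b] at e3
  rw [dist_comm b' a'] at e4
  nlinarith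

end LocData

theorem disc_max {f : ℕ → ℝ} {N : ℕ} (h0 : f 0 = 0) (hN : f N = 0)
    (hf : ∀ i, i + 2 ≤ N → f (i + 1) ≤ (f i + f (i + 2)) / 2) : ∀ i ≤ N, f i ≤ 0 := by
  by_contra hcon
  push Not at hcon
  classical
  have hex : ∃ i, i ≤ N ∧ 0 < f i := hcon
  obtain ⟨hi, hpos⟩ := Nat.find_spec hex
  set i := Nat.find hex with hidef
  have hi0 : i ≠ 0 := by
    intro h
    rw [h, h0] at hpos
    exact lt_irrefl _ hpos
  obtain ⟨m, hm⟩ := Nat.exists_eq_succ_of_ne_zero hi0
  have hm1 : f m ≤ 0 := by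
    by_contra hc
    push Not at hc
    have := Nat.find_min' hex ⟨by omega, hc⟩
    omega
  have key : ∀ d, m + 1 + d ≤ N → f (m + 1) - f m ≤ f (m + 1 + d) - f (m + d) ∧
      f (m + 1) ≤ f (m + 1 + d) := by
    intro d
    induction d with
    | zero => intro _; simp
    | succ d ih =>
      intro hd
      obtain ⟨k1, k2⟩ := ih (by omega)
      have k3 := hf (m + d) (by omega)
      have e1 : m + d + 1 = m + 1 + d := by omega
      have e2 : m + d + 2 = m + 1 + (d + 1) := by omega
      have e3 : m + (d + 1) = m + 1 + d := by omega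
      rw [e1, e2] at k3
      rw [e3]
      have hpos' : 0 < f (m + 1) := by rw [hm] at hpos; exact hpos
      constructor <;> linarith
  obtain ⟨d, hd⟩ : ∃ d, N = m + 1 + d := ⟨N - (m + 1), by omega⟩
  have := (key d (by omega)).2
  rw [← hd, hN] at this
  rw [hm] at hpos
  exact absurd hpos (by simpa using this)

theorem rows_eq [CompactSpace M] (h : LocData M r) {S N : ℕ} {Z : ℕ → ℕ → M} {x y : M}
    (hx : ∀ s ≤ S, Z s 0 = x) (hy : ∀ s ≤ S, Z s N = y)
    (hstep : ∀ s ≤ S, ∀ i < N, dist (Z s i) (Z s (i + 1)) ≤ r / 16)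
    (hclose : ∀ s < S, ∀ i ≤ N, dist (Z s i) (Z (s + 1) i) ≤ r / 16)
    (h0 : ∀ i, i + 2 ≤ N → IsMid (Z 0 i) (Z 0 (i + 2)) (Z 0 (i + 1)))
    (hS : ∀ i, i + 2 ≤ N → IsMid (Z S i) (Z S (i + 2)) (Z S (i + 1))) :
    ∀ i ≤ N, Z 0 i = Z S i := by
  have hr := h.pos
  let K : Set (ℕ → ℕ → M) := {W | (∀ i ≤ N, W 0 i = Z 0 i) ∧ (∀ i ≤ N, W S i = Z S i) ∧
    (∀ s ≤ S, W s 0 = x) ∧ (∀ s ≤ S, W s N = y) ∧
    (∀ s ≤ S, ∀ i < N, dist (W s i) (W s (i + 1)) ≤ r / 16) ∧
    (∀ s < S, ∀ i ≤ N, dist (W s i) (W (s + 1) i) ≤ r / 16)}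
  have hKc : IsClosed K := by
    simp only [K, setOf_and, setOf_forall]
    refine IsClosed.inter ?_ (IsClosed.inter ?_ (IsClosed.inter ?_ (IsClosed.inter ?_
      (IsClosed.inter ?_ ?_))))
    · exact isClosed_iInter fun i => isClosed_iInter fun _ => isClosed_eq (by fun_prop) (by fun_prop)
    · exact isClosed_iInter fun i => isClosed_iInter fun _ => isClosed_eq (by fun_prop) (by fun_prop)
    · exact isClosed_iInter fun i => isClosed_iInter fun _ => isClosed_eq (by fun_prop) (by fun_prop)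
    · exact isClosed_iInter fun i => isClosed_iInter fun _ => isClosed_eq (by fun_prop) (by fun_prop)
    · exact isClosed_iInter fun i => isClosed_iInter fun _ => isClosed_iInter fun j =>
        isClosed_iInter fun _ => isClosed_le (by fun_prop) (by fun_prop)
    · exact isClosed_iInter fun i => isClosed_iInter fun _ => isClosed_iInter fun j =>
        isClosed_iInter fun _ => isClosed_le (by fun_prop) (by fun_prop)
  have hKcomp : IsCompact K := hKc.isCompact
  have hKne : K.Nonempty := ⟨Z, fun _ _ => rfl, fun _ _ => rfl, hx, hy, hstep, hclose⟩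
  have hEc : Continuous fun W : ℕ → ℕ → M =>
      ∑ s ∈ Finset.range (S + 1), ∑ i ∈ Finset.range N, dist (W s i) (W s (i + 1)) ^ 2 := by
    fun_prop
  obtain ⟨W, hWK, hW⟩ := hKcomp.exists_isMinOn hKne hEc.continuousOn
  obtain ⟨w0, wS, wx, wy, wstep, wclose⟩ := hWK
  -- all rows are harmonic
  have harm : ∀ k, k + 2 ≤ N → ∀ s ≤ S, IsMid (W s k) (W s (k + 2)) (W s (k + 1)) := by
    intro k hk
    have hd2 : ∀ s ≤ S, dist (W s k) (W s (k + 2)) ≤ r / 8 := by
      intro s hs
      have := dist_triangle (W s k) (W s (k + 1)) (W s (k + 2))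
      have h1 := wstep s hs k (by omega)
      have h2 := wstep s hs (k + 1) (by omega)
      linarith
    have hex : ∀ s, ∃ m, s ≤ S → IsMid (W s k) (W s (k + 2)) m := by
      intro s
      by_cases hs : s ≤ S
      · obtain ⟨m, hm⟩ := h.exists_mid (x := W s k) (y := W s (k + 2)) (by linarith [hd2 s hs])
        exact ⟨m, fun _ => hm⟩
      · exact ⟨W s k, fun h => absurd h hs⟩
    choose m hm using hex
    let W' : ℕ → ℕ → M := fun s j => if j = k + 1 then m s else W s j
    have hW'1 : ∀ s, W' s (k + 1) = m s := fun s => by simp [W']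
    have hW'2 : ∀ s j, j ≠ k + 1 → W' s j = W s j := fun s j hj => by simp [W', hj]
    have hW'K : W' ∈ K := by
      refine ⟨?_, ?_, ?_, ?_, ?_, ?_⟩
      · intro i hi
        by_cases hik : i = k + 1
        · subst hik
          rw [hW'1]
          have e := hm 0 (Nat.zero_le _)
          rw [w0 k (by omega), w0 (k + 2) hk] at e
          have e' := hd2 0 (Nat.zero_le _)
          rw [w0 k (by omega), w0 (k + 2) hk] at e'
          exact h.mid_unique e (h0 k hk) (by linarith)
        · rw [hW'2 _ _ hik]; exact w0 i hi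
      · intro i hi
        by_cases hik : i = k + 1
        · subst hik
          rw [hW'1]
          have e := hm S le_rfl
          rw [wS k (by omega), wS (k + 2) hk] at e
          have e' := hd2 S le_rfl
          rw [wS k (by omega), wS (k + 2) hk] at e'
          exact h.mid_unique e (hS k hk) (by linarith)
        · rw [hW'2 _ _ hik]; exact wS i hi
      · intro s hs
        rw [hW'2 _ _ (by omega)]; exact wx s hs
      · intro s hs
        rw [hW'2 _ _ (by omega)]; exact wy s hs
      · intro s hs i hi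
        by_cases hik : i = k + 1
        · subst hik
          rw [hW'1, hW'2 _ _ (by omega), (hm s hs).2]
          linarith [hd2 s hs]
        · by_cases hik' : i = k
          · subst hik'
            rw [hW'1, hW'2 _ _ (by omega), (hm s hs).1]
            linarith [hd2 s hs]
          · rw [hW'2 _ _ hik, hW'2 _ _ (by omega)]
            exact wstep s hs i hi
      · intro s hs i hi
        by_cases hik : i = k + 1
        · subst hik
          rw [hW'1, hW'1]
          have c1 := wclose s hs k (by omega)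
          have c2 := wclose s hs (k + 2) hk
          have c3 := hd2 s hs.le
          have c4 := hd2 (s + 1) hs
          have c5 := dist_triangle (W s k) (W (s + 1) k) (W (s + 1) (k + 2))
          have e := h.mid_quad (hm s hs.le) (hm (s + 1) hs) (by linarith) (by linarith)
            (by linarith) (by linarith)
          have n1 := @dist_nonneg _ _ (W s k) (W (s + 1) k)
          have n2 := @dist_nonneg _ _ (W s (k + 2)) (W (s + 1) (k + 2))
          have n3 := @dist_nonneg _ _ (m s) (m (s + 1))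
          have e' : dist (m s) (m (s + 1)) ^ 2 ≤ (r / 16) ^ 2 := by nlinarith
          exact abs_le_of_sq_le_sq' e' (by linarith) |>.2
        · rw [hW'2 _ _ hik, hW'2 _ _ hik]; exact wclose s hs i hi
    have hE := isMinOn_iff.1 hW W' hW'K
    -- difference of the energies
    have hrow : ∀ s, ∑ i ∈ Finset.range N, (dist (W s i) (W s (i + 1)) ^ 2 -
        dist (W' s i) (W' s (i + 1)) ^ 2) =
        (dist (W s k) (W s (k + 1)) ^ 2 - dist (W s k) (m s) ^ 2) +
        (dist (W s (k + 1)) (W s (k + 2)) ^ 2 - dist (m s) (W s (k + 2)) ^ 2) := by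
      intro s
      have hsub : ({k, k + 1} : Finset ℕ) ⊆ Finset.range N := by
        intro i hi
        simp only [Finset.mem_insert, Finset.mem_singleton] at hi
        simp only [Finset.mem_range]
        omega
      rw [← Finset.sum_subset hsub]
      · rw [Finset.sum_pair (by omega)]
        rw [hW'1, hW'2 s k (by omega), hW'2 s (k + 1 + 1) (by omega)]
      · intro i _ hi
        simp only [Finset.mem_insert, Finset.mem_singleton, not_or] at hi
        rw [hW'2 s i hi.2, hW'2 s (i + 1) (by omega), sub_self]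
    have hnn : ∀ s ∈ Finset.range (S + 1), 0 ≤ ∑ i ∈ Finset.range N,
        (dist (W s i) (W s (i + 1)) ^ 2 - dist (W' s i) (W' s (i + 1)) ^ 2) := by
      intro s hs
      have hs' : s ≤ S := by
        rw [Finset.mem_range] at hs; omega
      rw [hrow, (hm s hs').1, (hm s hs').2]
      have e := dist_triangle (W s k) (W s (k + 1)) (W s (k + 2))
      have n := @dist_nonneg _ _ (W s k) (W s (k + 2))
      have n1 := @dist_nonneg _ _ (W s k) (W s (k + 1))
      have n2 := @dist_nonneg _ _ (W s (k + 1)) (W s (k + 2))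
      have e2 : dist (W s k) (W s (k + 2)) ^ 2 ≤
          (dist (W s k) (W s (k + 1)) + dist (W s (k + 1)) (W s (k + 2))) ^ 2 := by gcongr
      nlinarith [sq_nonneg (dist (W s k) (W s (k + 1)) - dist (W s (k + 1)) (W s (k + 2)))]
    have hsum : ∑ s ∈ Finset.range (S + 1), ∑ i ∈ Finset.range N,
        (dist (W s i) (W s (i + 1)) ^ 2 - dist (W' s i) (W' s (i + 1)) ^ 2) ≤ 0 := by
      simp only [Finset.sum_sub_distrib]
      linarith
    have hzero := (Finset.sum_eq_zero_iff_of_nonneg hnn).1 (le_antisymm hsum (Finset.sum_nonneg hnn))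
    intro s hs
    have e0 := hzero s (by rw [Finset.mem_range]; omega)
    rw [hrow, (hm s hs).1, (hm s hs).2] at e0
    have e := dist_triangle (W s k) (W s (k + 1)) (W s (k + 2))
    have n := @dist_nonneg _ _ (W s k) (W s (k + 2))
    have n1 := @dist_nonneg _ _ (W s k) (W s (k + 1))
    have n2 := @dist_nonneg _ _ (W s (k + 1)) (W s (k + 2))
    have e2 : dist (W s k) (W s (k + 2)) ^ 2 ≤
        (dist (W s k) (W s (k + 1)) + dist (W s (k + 1)) (W s (k + 2))) ^ 2 := by gcongr
    have e3 : (dist (W s k) (W s (k + 1)) - dist (W s (k + 1)) (W s (k + 2))) ^ 2 ≤ 0 := by nlinarith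
    have e4 : dist (W s k) (W s (k + 1)) = dist (W s (k + 1)) (W s (k + 2)) := by nlinarith
    have e5 : dist (W s k) (W s (k + 2)) ^ 2 = (2 * dist (W s k) (W s (k + 1))) ^ 2 := by
      rw [← e4] at e0
      nlinarith
    have e6 : dist (W s k) (W s (k + 2)) = 2 * dist (W s k) (W s (k + 1)) := by
      have := (pow_left_inj₀ n (by positivity) (two_ne_zero)).1 e5
      exact this
    exact ⟨by rw [e6]; ring, by rw [← e4, e6]; ring⟩
  -- consecutive rows agree
  have hcons : ∀ s < S, ∀ i ≤ N, W s i = W (s + 1) i := by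
    intro s hs
    have key := disc_max (f := fun i => dist (W s i) (W (s + 1) i) ^ 2) (N := N)
      (by simp only [wx s hs.le, wx (s + 1) hs, dist_self]; norm_num)
      (by simp only [wy s hs.le, wy (s + 1) hs, dist_self]; norm_num)
      (by
        intro i hi
        have c1 := wclose s hs i (by omega)
        have d1 := wstep s hs.le i (by omega)
        have d2 := wstep s hs.le (i + 1) (by omega)
        have d3 := wstep (s + 1) hs i (by omega)
        have d4 := wstep (s + 1) hs (i + 1) (by omega)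
        have t1 := dist_triangle (W s i) (W s (i + 1)) (W s (i + 2))
        have t2 := dist_triangle (W (s + 1) i) (W (s + 1) (i + 1)) (W (s + 1) (i + 2))
        have t3 := dist_triangle (W s i) (W (s + 1) i) (W (s + 1) (i + 2))
        have e := h.mid_quad (harm i hi s hs.le) (harm i hi (s + 1) hs) (by linarith) (by linarith)
            (by linarith) (by linarith)
        have := sq_nonneg (dist (W s i) (W s (i + 2)) - dist (W (s + 1) i) (W (s + 1) (i + 2)))
        linarith)
    intro i hi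
    have e := key i hi
    have e2 : dist (W s i) (W (s + 1) i) = 0 := by
      have := @dist_nonneg _ _ (W s i) (W (s + 1) i)
      nlinarith
    exact dist_eq_zero.1 e2
  have hall : ∀ s ≤ S, ∀ i ≤ N, W 0 i = W s i := by
    intro s
    induction s with
    | zero => intro _ i _; rfl
    | succ s ih =>
      intro hs i hi
      rw [ih (by omega) i hi, hcons s (by omega) i hi]
  intro i hi
  rw [← w0 i hi, ← wS i hi]
  exact hall S le_rfl i hi

theorem unif2 {Y : Type*} [PseudoMetricSpace Y] {f : unitInterval × unitInterval → Y}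
    (hf : Continuous f) {ε : ℝ} (hε : 0 < ε) : ∃ N₀ : ℕ, 0 < N₀ ∧ ∀ N ≥ N₀,
      ∀ s t s' t' : unitInterval, |(s : ℝ) - s'| ≤ 1 / N → |(t : ℝ) - t'| ≤ 1 / N →
      dist (f (s, t)) (f (s', t')) < ε := by
  have hu := CompactSpace.uniformContinuous_of_continuous hf
  rw [Metric.uniformContinuous_iff] at hu
  obtain ⟨δ, hδ, hd⟩ := hu ε hε
  obtain ⟨n, hn⟩ := exists_nat_gt (1 / δ)
  have hn0 : (0 : ℝ) < n := lt_trans (by positivity) hn
  refine ⟨n, by exact_mod_cast hn0, fun N hN s t s' t' hst htt => hd ?_⟩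
  have hN' : (n : ℝ) ≤ N := by exact_mod_cast hN
  have h1 : (1 : ℝ) / N < δ := by
    calc (1 : ℝ) / N ≤ 1 / n := by gcongr
      _ < δ := by
        rw [div_lt_iff₀ hn0]
        rw [div_lt_iff₀ hδ] at hn
        linarith
  rw [Prod.dist_eq, max_lt_iff, Subtype.dist_eq, Subtype.dist_eq, Real.dist_eq, Real.dist_eq]
  exact ⟨hst.trans_lt h1, htt.trans_lt h1⟩

namespace UC

theorem geod_grid {a b : UC h p} {γ : ℝ → UC h p} (hγ : IsGeodesic γ a b) {N i j : ℕ} (hij : i ≤ j)
    (hj : j ≤ N) (hN : 0 < N) :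
    dist (γ ((i : ℝ) / N)) (γ ((j : ℝ) / N)) = ((j : ℝ) - i) / N * dist a b := by
  have hN' : (0 : ℝ) < N := by exact_mod_cast hN
  have h1 : (i : ℝ) ≤ j := by exact_mod_cast hij
  have h2 : (j : ℝ) ≤ N := by exact_mod_cast hj
  rw [isGeodesic_dist hγ (by positivity) (by gcongr) (by rw [div_le_one hN']; exact h2)]
  ring

/-- Geodesics are unique. -/
theorem geod_unique [CompactSpace M] {a b : UC h p} {γ₀ γ₁ : ℝ → UC h p}
    (h₀ : IsGeodesic γ₀ a b) (h₁ : IsGeodesic γ₁ a b) {t : ℝ} (ht : t ∈ Icc (0 : ℝ) 1) :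
    γ₀ t = γ₁ t := by
  have hr := h.pos
  have hL := @dist_nonneg _ _ a b
  obtain ⟨F₀, hF₀⟩ := exists_path_of_geodesic h₀
  obtain ⟨F₁, hF₁⟩ := exists_path_of_geodesic h₁
  set P₀ := proj F₀.toContinuousMap F₀.source F₀.target with hP₀
  set P₁ := proj F₁.toContinuousMap F₁.source F₁.target with hP₁
  have hom : P₀.Homotopic P₁ := by
    have e0 := cls_eq F₀.toContinuousMap F₀.source F₀.target
    have e1 := cls_eq F₁.toContinuousMap F₁.source F₁.target
    rw [← hP₀] at e0
    rw [← hP₁] at e1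
    rw [← Path.Homotopic.Quotient.eq]
    have e2 : a.cls.symm.trans (a.cls.trans (Path.Homotopic.Quotient.mk P₀)) =
        a.cls.symm.trans (a.cls.trans (Path.Homotopic.Quotient.mk P₁)) := by rw [← e0, ← e1]
    rw [← trans_assoc, ← trans_assoc] at e2
    simpa using e2
  obtain ⟨H⟩ := hom
  have hP₀' : ∀ t : unitInterval, P₀ t = (γ₀ t).pt := fun t => by
    rw [← hF₀]; rfl
  have hP₁' : ∀ t : unitInterval, P₁ t = (γ₁ t).pt := fun t => by
    rw [← hF₁]; rfl
  obtain ⟨N₀, hN₀, hu⟩ := unif2 H.continuous (show 0 < r / 16 by linarith)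
  obtain ⟨n₁, hn₁⟩ := exists_nat_gt (dist a b / (r / 16))
  -- on fine grids the two geodesics agree
  have grid : ∀ N : ℕ, N₀ ≤ N → n₁ ≤ N → ∀ i ≤ N, γ₀ ((i : ℝ) / N) = γ₁ ((i : ℝ) / N) := by
    intro N hN hN1
    have hN0 : 0 < N := by omega
    have hNr : (0 : ℝ) < N := by exact_mod_cast hN0
    have hLN : dist a b / N < r / 16 := by
      rw [div_lt_iff₀ (by linarith)] at hn₁
      rw [div_lt_iff₀ hNr]
      have : (n₁ : ℝ) ≤ N := by exact_mod_cast hN1
      nlinarith
    have harm : ∀ (γ : ℝ → UC h p) (P : Path a.pt b.pt), IsGeodesic γ a b →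
        (∀ t : unitInterval, P t = (γ t).pt) → ∀ i, i + 2 ≤ N →
        IsMid (P (tt N i)) (P (tt N (i + 2))) (P (tt N (i + 1))) := by
      intro γ P hγ hP i hi
      have e1 := geod_grid hγ (N := N) (i := i) (j := i + 1) (by omega) (by omega) hN0
      have e2 := geod_grid hγ (N := N) (i := i + 1) (j := i + 2) (by omega) (by omega) hN0
      have e3 := geod_grid hγ (N := N) (i := i) (j := i + 2) (by omega) (by omega) hN0
      have f1 : dist (γ ((i : ℝ) / N)) (γ (((i + 1 : ℕ) : ℝ) / N)) = dist a b / N := by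
        rw [e1]; push_cast; ring
      have f2 : dist (γ (((i + 1 : ℕ) : ℝ) / N)) (γ (((i + 2 : ℕ) : ℝ) / N)) = dist a b / N := by
        rw [e2]; push_cast; ring
      have f3 : dist (γ ((i : ℝ) / N)) (γ (((i + 2 : ℕ) : ℝ) / N)) = 2 * (dist a b / N) := by
        rw [e3]; push_cast; ring
      have g1 := (near_of_dist (show dist (γ ((i : ℝ) / N)) (γ (((i + 1 : ℕ) : ℝ) / N)) < r / 4 by
        rw [f1]; linarith)).dist_eq
      have g2 := (near_of_dist (show dist (γ (((i + 1 : ℕ) : ℝ) / N))
        (γ (((i + 2 : ℕ) : ℝ) / N)) < r / 4 by rw [f2]; linarith)).dist_eq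
      have g3 := (near_of_dist (show dist (γ ((i : ℝ) / N)) (γ (((i + 2 : ℕ) : ℝ) / N)) < r / 4 by
        rw [f3]; linarith)).dist_eq
      rw [hP, hP, hP, tt_coe (by omega), tt_coe (by omega), tt_coe (by omega)]
      constructor
      · rw [← g1, ← g3, f1, f3]; ring
      · rw [← g2, ← g3, f2, f3]; ring
    have hrows := rows_eq h (S := N) (N := N) (Z := fun s i => H (tt N s, tt N i)) (x := a.pt)
      (y := b.pt) (fun s _ => by simp [tt_zero]) (fun s _ => by simp [tt_self hN0])
      (fun s hs i hi => (hu N hN _ _ _ _ (by simp) (by rw [abs_sub_comm]; exact (tt_sub hi).le)).le)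
      (fun s hs i hi => (hu N hN _ _ _ _ (by rw [abs_sub_comm]; exact (tt_sub hs).le) (by simp)).le)
      (by
        intro i hi
        have := harm γ₀ P₀ h₀ hP₀' i hi
        simpa [tt_zero] using this)
      (by
        intro i hi
        have := harm γ₁ P₁ h₁ hP₁' i hi
        simpa [tt_self hN0] using this)
    have hpts : ∀ i ≤ N, (γ₀ ((i : ℝ) / N)).pt = (γ₁ ((i : ℝ) / N)).pt := by
      intro i hi
      have := hrows i hi
      simp only [tt_zero, tt_self hN0, ContinuousMap.HomotopyWith.apply_zero,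
        ContinuousMap.HomotopyWith.apply_one, Path.coe_toContinuousMap] at this
      rw [hP₀', hP₁', tt_coe hi] at this
      exact this
    intro i
    induction i with
    | zero =>
      intro _
      simp [h₀.1, h₁.1]
    | succ i ih =>
      intro hi
      have e := ih (by omega)
      have f0 := geod_grid h₀ (N := N) (i := i) (j := i + 1) (by omega) (by omega) hN0
      have f1 := geod_grid h₁ (N := N) (i := i) (j := i + 1) (by omega) (by omega) hN0
      have e0 : ((((i + 1 : ℕ) : ℝ) - i) / N * dist a b) = dist a b / N := by push_cast; ring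
      rw [e0] at f0 f1
      have n0 : Near (γ₀ ((i : ℝ) / N)) (γ₀ (((i + 1 : ℕ) : ℝ) / N)) :=
        near_of_dist (by rw [f0]; linarith)
      have n1 : Near (γ₁ ((i : ℝ) / N)) (γ₁ (((i + 1 : ℕ) : ℝ) / N)) :=
        near_of_dist (by rw [f1]; linarith)
      rw [← e] at n1
      exact near_unique n0 n1 (hpts (i + 1) hi)
  -- conclude by density
  have hle : dist (γ₀ t) (γ₁ t) ≤ 0 := by
    refine le_of_forall_pos_le_add fun ε hε => ?_
    obtain ⟨n₂, hn₂⟩ := exists_nat_gt (2 * dist a b / ε)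
    set N := max N₀ (max n₁ n₂) with hN
    have hN1 : N₀ ≤ N := le_max_left _ _
    have hN2 : n₁ ≤ N := (le_max_left _ _).trans (le_max_right _ _)
    have hN3 : n₂ ≤ N := (le_max_right _ _).trans (le_max_right _ _)
    have hN0 : 0 < N := by omega
    have hNr : (0 : ℝ) < N := by exact_mod_cast hN0
    set i := ⌊t * N⌋₊ with hi
    have hiN : i ≤ N := by
      rw [hi]
      apply Nat.floor_le_of_le
      nlinarith [ht.2]
    have hfl : (i : ℝ) ≤ t * N := Nat.floor_le (mul_nonneg ht.1 hNr.le)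
    have hlt : t * N < i + 1 := Nat.lt_floor_add_one _
    have h1 : (i : ℝ) / N ≤ t := by rw [div_le_iff₀ hNr]; exact hfl
    have h2 : t - (i : ℝ) / N ≤ 1 / N := by
      rw [sub_le_iff_le_add, ← add_div, le_div_iff₀ hNr]
      linarith
    have e1 := isGeodesic_dist h₀ (show 0 ≤ (i : ℝ) / N by positivity) h1 ht.2
    have e2 := isGeodesic_dist h₁ (show 0 ≤ (i : ℝ) / N by positivity) h1 ht.2
    have e3 := grid N hN1 hN2 i hiN
    have e4 := dist_triangle_left (γ₀ t) (γ₁ t) (γ₀ ((i : ℝ) / N))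
    have e5 : dist (γ₀ ((i : ℝ) / N)) (γ₁ t) = dist (γ₁ ((i : ℝ) / N)) (γ₁ t) := by rw [e3]
    rw [e5, e1, e2] at e4
    have e6 : 2 * dist a b / N < ε := by
      rw [div_lt_iff₀ hε] at hn₂
      rw [div_lt_iff₀ hNr]
      have : (n₂ : ℝ) ≤ N := by exact_mod_cast hN3
      nlinarith
    have e7 : (t - (i : ℝ) / N) * dist a b ≤ 1 / N * dist a b := by gcongr
    have e8 : 1 / (N : ℝ) * dist a b + 1 / N * dist a b = 2 * dist a b / N := by ring
    linarith
  exact dist_le_zero.1 hle

/-- The point at given distances from the endpoints is unique. -/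
theorem point_unique [CompactSpace M] {a b w w' : UC h p} {t : ℝ} (ht : t ∈ Icc (0 : ℝ) 1)
    (h1 : dist a w = t * dist a b) (h2 : dist w b = (1 - t) * dist a b)
    (h1' : dist a w' = t * dist a b) (h2' : dist w' b = (1 - t) * dist a b) : w = w' := by
  obtain ⟨γ₁, g₁⟩ := exists_geod a w
  obtain ⟨γ₂, g₂⟩ := exists_geod w b
  obtain ⟨γ₁', g₁'⟩ := exists_geod a w'
  obtain ⟨γ₂', g₂'⟩ := exists_geod w' b
  obtain ⟨γ, hγ, hγt⟩ := exists_concat g₁ g₂ (by rw [h1, h2]; ring) ht h1 h2
  obtain ⟨γ', hγ', hγt'⟩ := exists_concat g₁' g₂' (by rw [h1', h2']; ring) ht h1' h2'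
  rw [← hγt, ← hγt']
  exact geod_unique hγ hγ' ht

end UC

end Pool.Agent.Work.MP_f0c219_gt.Hadamard
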